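import Pool.Agent.H30GS.Core
import Pool.Agent.H30GR.Twq

/-!
# The element of the cubic field which belongs to a Selmer class of a twist over `ℚ`
-/

set_option autoImplicit false
set_option linter.all false

open Polynomial IsDedekindDomain WeierstrassCurve WeierstrassCurve.Affine NumberField
open Pool.Agent.TH115.GD
open scoped Classical IntermediateField

namespace Pool.Agent.H30GS

open Pool.Agent.N922.PQ
open Pool.Agent.H30EV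
open Pool.Agent.H30GR
open Pool.Agent.N692.PMTOW
open Pool.Agent.N874.PP (Tup chA chB gq tau Two Ev Sq1 U0 sW IsBeta Rt sg)
open Pool.Agent.N874.PM (PLoc Lies SelR ShaR)

/-- All primes are unramified in `ℚ`. -/
theorem unr_q {P : ℤ} (hP : IsPr P) : Unr ℚ P := by
  intro w hw
  have hl' : w.asIdeal.LiesOver (pz hP).asIdeal := liesOver_of hP hw
  have h3 := HeightOneSpectrum.valuation_liesOver (K := ℚ) ℚ (pz hP) w
  have h4 : (pz hP).valuation ℚ (P : ℚ) = WithZero.exp (-1 : ℤ) := by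
    have e : ((P : ℤ) : ℚ) = algebraMap ℤ ℚ P := by simp
    rw [e, HeightOneSpectrum.valuation_of_algebraMap]
    exact HeightOneSpectrum.intValuation_singleton _ hP.2.ne_zero rfl
  obtain ⟨x, hx⟩ := w.valuation_surjective (K := ℚ) (WithZero.exp (-1 : ℤ))
  have h5 := h3 x
  rw [Algebra.algebraMap_self, RingHom.id_apply, hx] at h5
  have hne : (pz hP).valuation ℚ x ≠ 0 := by
    intro h0
    have : x = 0 := (Valuation.zero_iff _).1 h0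
    rw [this, map_zero] at hx
    exact WithZero.exp_ne_zero hx.symm
  rw [← WithZero.exp_log hne, ← WithZero.exp_nsmul, WithZero.exp_inj] at h5
  have h6 : ((pz hP).asIdeal.ramificationIdx' w.asIdeal : ℤ) ∣ 1 := by
    refine ⟨-WithZero.log ((pz hP).valuation ℚ x), ?_⟩
    simp only [nsmul_eq_mul] at h5
    linear_combination h5
  have h7 : (pz hP).asIdeal.ramificationIdx' w.asIdeal = 1 := by
    have : (pz hP).asIdeal.ramificationIdx' w.asIdeal ∣ 1 := by exact_mod_cast h6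
    exact Nat.dvd_one.1 this
  have h8 := h3 (P : ℚ)
  rw [h7, pow_one, h4, Algebra.algebraMap_self, RingHom.id_apply] at h8
  exact h8.symm

theorem res_q {P : ℤ} (hP : IsPr P) : Res ℚ P := by
  intro w hw
  have hPp : w.asIdeal.IsPrime := w.isPrime
  have hl : w.asIdeal.LiesOver (Ideal.span {P}) := liesOver_of hP hw
  have hN := Ideal.absNorm_eq_pow_inertiaDeg w.asIdeal hP.2
  have h0 : Ideal.span {P} ≠ ⊥ := by
    rw [Ne, Ideal.span_singleton_eq_bot]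
    exact hP.2.ne_zero
  have hpmax : (Ideal.span {P}).IsMaximal :=
    PrincipalIdealRing.isMaximal_of_irreducible hP.2.irreducible
  have hf : (Ideal.span {P}).inertiaDeg' w.asIdeal = 1 := by
    have hsum := Ideal.sum_ramification_inertia (𝓞 ℚ) ℚ ℚ h0
    rw [Module.finrank_self] at hsum
    have hm : w.asIdeal ∈ IsDedekindDomain.primesOverFinset (Ideal.span {P}) (𝓞 ℚ) :=
      (IsDedekindDomain.mem_primesOverFinset_iff h0 _).mpr ⟨hPp, hl⟩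
    have h1 := Finset.single_le_sum (f := fun Q => (Ideal.span {P}).ramificationIdx' Q *
      (Ideal.span {P}).inertiaDeg' Q) (fun _ _ => Nat.zero_le _) hm
    rw [hsum] at h1
    have h2 : (Ideal.span {P}).inertiaDeg' w.asIdeal ≠ 0 := Ideal.inertiaDeg'_ne_zero _ _
    have h3 : (Ideal.span {P}).ramificationIdx' w.asIdeal ≠ 0 :=
      Ideal.IsDedekindDomain.ramificationIdx'_ne_zero_of_liesOver _ h0
    have h4 : (Ideal.span {P}).inertiaDeg' w.asIdeal ≤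
        (Ideal.span {P}).ramificationIdx' w.asIdeal * (Ideal.span {P}).inertiaDeg' w.asIdeal :=
      Nat.le_mul_of_pos_left _ (Nat.pos_of_ne_zero h3)
    have h5 := h4.trans h1
    omega
  rw [hf, pow_one] at hN
  exact hN

theorem isGal_q : @IsGalois ℚ _ ℚ _ DivisionRing.toRatAlgebra := by
  have halg : (DivisionRing.toRatAlgebra : Algebra ℚ ℚ) = Algebra.id ℚ := Subsingleton.elim _ _
  rw [halg]
  exact IsGalois.self ℚ

theorem finrank_q : @Module.finrank ℚ ℚ _ _ DivisionRing.toRatAlgebra.toModule = 2 ^ 0 := by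
  have hfr : Module.finrank ℚ ℚ = 2 ^ 0 := by rw [Module.finrank_self, pow_zero]
  convert hfr

section sel

variable {L : Type} [Field L] [NumberField L]

/-- The element of a Selmer class. -/
theorem sel_elem (H : Parts2) {a b d : ℤ} {θ : L} {X' : ℕ} {S T J : Finset ℤ} {s A B : ℤ → ℤ}
    (hc : IsCub a b θ) (hS : GoodS S s) (hF : Fam X' S s T A B a b) (hT : GoodT T A B)
    (hJ : J ⊆ S) (ha4 : a % 4 = 3) (hb4 : b % 4 = 3) (hd4 : d % 4 = 1 ∨ d % 4 = 2) {R : Finset ℕ}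
    (hR : ∀ l ∈ R, l.Prime) (hJR : ∀ Q ∈ J, Q ∉ zs R)
    (hd : ∀ P : ℤ, IsPr P → P ∣ d → P ∈ irr a b ∪ zs R)
    {f : (Sep ℚ ≃ₐ[ℚ] Sep ℚ) → Pt (sW (((a * d ^ 2 * (∏ Q ∈ J, Q) ^ 2 : ℤ)) : ℚ)
      (((b * d ^ 3 * (∏ Q ∈ J, Q) ^ 3 : ℤ)) : ℚ)) (Sep ℚ)}
    (hf : IsCoc (sW (((a * d ^ 2 * (∏ Q ∈ J, Q) ^ 2 : ℤ)) : ℚ)
      (((b * d ^ 3 * (∏ Q ∈ J, Q) ^ 3 : ℤ)) : ℚ)) f) (h2f : ∀ σ, (2 : ℕ) • f σ = 0)
    (hloc : ∀ v : HeightOneSpectrum (𝓞 ℚ), LocTriv (sW (((a * d ^ 2 * (∏ Q ∈ J, Q) ^ 2 : ℤ)) : ℚ)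
      (((b * d ^ 3 * (∏ Q ∈ J, Q) ^ 3 : ℤ)) : ℚ)) (Comp (𝓞 ℚ) ℚ v) (Sep (Comp (𝓞 ℚ) ℚ v)) f) :
    ∃ h : ℚ[X], aeval (((d * ∏ Q ∈ J, Q : ℤ) : L) * θ) h ≠ 0 ∧
      IsSquare (Algebra.norm ℚ (aeval (((d * ∏ Q ∈ J, Q : ℤ) : L) * θ) h)) ∧
      C0 a b J R θ (aeval (((d * ∏ Q ∈ J, Q : ℤ) : L) * θ) h) ∧
      (∀ w : HeightOneSpectrum (𝓞 ℚ), ¬ Ov 2 w → PLoc (w.adicCompletion ℚ)
        (((a * (d * ∏ Q ∈ J, Q) ^ 2 : ℤ)) : ℚ) (((b * (d * ∏ Q ∈ J, Q) ^ 3 : ℤ)) : ℚ) h) ∧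
      (IsSquare (aeval (((d * ∏ Q ∈ J, Q : ℤ) : L) * θ) h) →
        ∃ P : Pt (sW (((a * d ^ 2 * (∏ Q ∈ J, Q) ^ 2 : ℤ)) : ℚ)
          (((b * d ^ 3 * (∏ Q ∈ J, Q) ^ 3 : ℤ)) : ℚ)) (Sep ℚ), (2 : ℕ) • P = 0 ∧
          ∀ σ, f σ = act _ (rs ℚ σ) P - P) := by
  haveI := isGal_q
  have hM := finrank_q
  have hΩ : Module.finrank ℚ L = 3 := hc.rank
  have h6M : (6 : ℚ) ≠ 0 := by norm_num
  have hd0 : d ≠ 0 := by
    rintro rfl
    omega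
  have htop2 : im ℚ ℚ L ⊔ im ℚ L L = ⊤ := sup_top hM hc.rank hΩ
  have ha : Odd a := by
    rw [Int.odd_iff]
    omega
  have hb : Odd b := by
    rw [Int.odd_iff]
    omega
  have hJT : ∀ Q ∈ J, Q ∉ irr a b ∪ zs R := by
    rintro Q hQ (h | h)
    · apply h.2 0
      have := hF.rb Q (hJ hQ)
      simpa using this
    · exact hJR Q hQ h
  have hTp : ∀ P ∈ irr a b ∪ zs R, IsPr P := zs_pr hR
  have h2T : (2 : ℤ) ∈ irr a b := ⟨(hT.2.2 2 hT.1).1, fam_nt hT hF hT.1⟩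
  have h3T : (3 : ℤ) ∈ irr a b := ⟨(hT.2.2 3 hT.2.1).1, fam_nt hT hF hT.2.1⟩
  have hJp : ∀ Q ∈ J, IsPr Q := fun Q hQ => (hS Q (hJ hQ)).1
  have hc' : IsCub (a * d ^ 2) (b * d ^ 3) ((d : L) * θ) := isCub_tw hd0 hc
  have hnr0 : ∀ w : HeightOneSpectrum (𝓞 ℚ), Ov 2 w → ∀ t : w.adicCompletion ℚ,
      t ^ 3 + (a : w.adicCompletion ℚ) * t + (b : w.adicCompletion ℚ) ≠ 0 :=
    fun w hw => H.nr ℚ (𝓞 ℚ) 0 hM w hw a b ha hb
  have hnr : ∀ w : HeightOneSpectrum (𝓞 ℚ), Ov 2 w → ∀ t : w.adicCompletion ℚ,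
      t ^ 3 + ((a * d ^ 2 : ℤ) : w.adicCompletion ℚ) * t +
        ((b * d ^ 3 : ℤ) : w.adicCompletion ℚ) ≠ 0 := by
    intro w hw t
    exact no_root_tw' (hnr0 w hw) hd0 t
  have hdsc' : dsc (a * d ^ 2) (b * d ^ 3) ≠ 0 := by
    have e : dsc (a * d ^ 2) (b * d ^ 3) = d ^ 6 * dsc a b := by
      rw [dsc, dsc]
      ring
    rw [e]
    exact mul_ne_zero (pow_ne_zero _ hd0) hF.sq.ne_zero
  have hD1 : 0 < (∏ Q ∈ J, Q) := Finset.prod_pos fun Q hQ => (hS Q (hJ hQ)).1.1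
  have hD0 : (∏ Q ∈ J, Q) ≠ 0 := hD1.ne'
  have hD8 : (∏ Q ∈ J, Q) % 8 = 1 := prod_mod8 fun Q hQ => (hS Q (hJ hQ)).2.1
  have eA : a * d ^ 2 * (∏ Q ∈ J, Q) ^ 2 = a * (d * ∏ Q ∈ J, Q) ^ 2 := by
    ring
  have eB : b * d ^ 3 * (∏ Q ∈ J, Q) ^ 3 = b * (d * ∏ Q ∈ J, Q) ^ 3 := by
    ring
  have hirrD : Irreducible (X ^ 3 + C (((a * d ^ 2 * (∏ Q ∈ J, Q) ^ 2 : ℤ)) : ℚ) * X +
      C (((b * d ^ 3 * (∏ Q ∈ J, Q) ^ 3 : ℤ)) : ℚ) : ℚ[X]) := by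
    obtain ⟨w₀, hw₀⟩ := exists_over (𝓞 ℚ)
    exact irr_tw' (F := ℚ) (a := a * d ^ 2 * (∏ Q ∈ J, Q) ^ 2) (b := b * d ^ 3 * (∏ Q ∈ J, Q) ^ 3)
      (fun t ht => by
        apply no_root_tw' (hnr w₀ hw₀) hD0 (algebraMap ℚ _ t)
        have h1 := congrArg (algebraMap ℚ (w₀.adicCompletion ℚ)) ht
        rw [map_zero, map_add, map_add, map_mul, map_pow, map_intCast, map_intCast] at h1
        exact h1)
  have hdisc : 4 * (((a * d ^ 2 * (∏ Q ∈ J, Q) ^ 2 : ℤ)) : ℚ) ^ 3 +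
      27 * (((b * d ^ 3 * (∏ Q ∈ J, Q) ^ 3 : ℤ)) : ℚ) ^ 2 ≠ 0 := by
    have e : 4 * (((a * d ^ 2 * (∏ Q ∈ J, Q) ^ 2 : ℤ)) : ℚ) ^ 3 +
      27 * (((b * d ^ 3 * (∏ Q ∈ J, Q) ^ 3 : ℤ)) : ℚ) ^ 2 =
        (((∏ Q ∈ J, Q) ^ 6 * dsc (a * d ^ 2) (b * d ^ 3) : ℤ) : ℚ) := by
      simp only [dsc, Int.cast_mul, Int.cast_add, Int.cast_pow, Int.cast_ofNat]
      ring
    rw [e, Int.cast_ne_zero]
    exact mul_ne_zero (pow_ne_zero _ hD0) hdsc'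
  have hroot := hc'.root
  have htop' : ℚ⟮(d : L) * θ⟯ = ⊤ := by
    rw [eq_top_iff]
    intro x _
    obtain ⟨r, u, v, rfl⟩ := hc'.gen x
    have h1 : (d : L) * θ ∈ ℚ⟮(d : L) * θ⟯ := IntermediateField.mem_adjoin_simple_self ℚ _
    have h3 : ∀ r : ℚ, (r : L) ∈ ℚ⟮(d : L) * θ⟯ := fun r => by
      have := ℚ⟮(d : L) * θ⟯.algebraMap_mem r
      simpa using this
    exact add_mem (add_mem (h3 r) (mul_mem (h3 u) h1)) (mul_mem (h3 v) (pow_mem h1 2))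
  have hmin : minpoly ℚ ((d : L) * θ) = ff ℚ (a * d ^ 2) (b * d ^ 3) := by
    have hint : IsIntegral ℚ ((d : L) * θ) := Algebra.IsIntegral.isIntegral _
    have hd : minpoly ℚ ((d : L) * θ) ∣ ff ℚ (a * d ^ 2) (b * d ^ 3) := by
      apply minpoly.dvd
      simp only [ff, map_add, map_mul, map_pow, aeval_X, aeval_C, map_intCast]
      exact hroot
    have hdeg : (minpoly ℚ ((d : L) * θ)).natDegree = 3 := by
      rw [(Field.primitive_element_iff_minpoly_natDegree_eq ℚ _).1 htop', hΩ]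
    exact (Polynomial.eq_of_monic_of_dvd_of_natDegree_le (minpoly.monic hint) (ff_monic ℚ _ _)
      hd (by rw [hdeg, ff_deg])).symm
  have eθ : (((∏ Q ∈ J, Q : ℤ)) : L) * ((d : L) * θ) = (((d * ∏ Q ∈ J, Q : ℤ)) : L) * θ := by
    rw [Int.cast_mul]
    ring
  have hRt : Rt (((a * d ^ 2 * (∏ Q ∈ J, Q) ^ 2 : ℤ)) : ℚ) (((b * d ^ 3 * (∏ Q ∈ J, Q) ^ 3 : ℤ)) : ℚ)
      ((((d * ∏ Q ∈ J, Q : ℤ)) : L) * θ) := by
    unfold Rt
    rw [map_intCast, map_intCast, ← eθ, Int.cast_mul (a * d ^ 2), Int.cast_mul (b * d ^ 3),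
      Int.cast_pow, Int.cast_pow]
    linear_combination (((∏ Q ∈ J, Q : ℤ)) : L) ^ 3 * hroot
  obtain ⟨β, hβ⟩ := H.p.gb ℚ _ _ h6M hdisc hirrD f hf h2f
  obtain ⟨h, hh, hn⟩ := H.p.gn ℚ _ _ h6M hdisc hirrD f hf h2f β hβ
  have hn2 := hn L _ hRt hΩ
  have hloc' : ∀ w : HeightOneSpectrum (𝓞 ℚ), ¬ Ov 2 w → @PLoc ℚ (w.adicCompletion ℚ) _ _
      (HeightOneSpectrum.instAlgebraAdicCompletion (𝓞 ℚ) ℚ w)
      (((a * (d * ∏ Q ∈ J, Q) ^ 2 : ℤ)) : ℚ) (((b * (d * ∏ Q ∈ J, Q) ^ 3 : ℤ)) : ℚ) h := by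
    intro w hw
    have := H.p.glr ℚ (𝓞 ℚ) _ _ h6M hdisc f hf h2f β h hβ hh w (val_two hw) (hloc w)
    rw [eA, eB] at this
    exact this
  have hcs := cs_topR (Ω := L) H.p.exq H.p.lie H.p.loc1 H.p.loc2 htop2 hc hS hF hJ hTp hJT
    (Or.inl h2T) (Or.inl h3T) (fun P hP _ => unr_q hP) (fun Q hQ => res_q (hJp Q hQ)) hd (h := h)
    hloc' hn2.1
  refine ⟨h, hn2.1, hn2.2, ⟨hcs, ?_⟩, fun w hw => by
    convert hloc' w hw
    exact Subsingleton.elim _ _, fun hsq => ?_⟩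
  · -- the condition at two
    have hc2 := c2w_sel (𝓞 ℚ) H.p.glr2 H.sqd H.twg hD0 hD8 hnr hmin hdisc f hf h2f β h hβ hh hloc
    refine base_two' (M := ℚ) (Ω := L) hc ha4 hb4 hd4 unr_rat hn2.1 hn2.2 ?_
    rw [← eθ]
    exact hc2
  · exact H.p.gt ℚ _ _ h6M hdisc hirrD f hf h2f β h hβ hh L _ hRt hΩ hsq

end sel

end Pool.Agent.H30GS
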