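import Pool.Agent.H30GR.Defs

/-!
# Definitions: primes with full 2-torsion, twists with prescribed signs
-/

set_option autoImplicit false
set_option linter.all false

open NumberField IsDedekindDomain

namespace Pool.Agent.H30GS

open Pool.Agent.H30EV Pool.Agent.H30GR

/-- The prime number `l` is odd, the curve `q = (A, B)` has good reduction at `l` (`l` does not divide
`4 A ^ 3 + 27 B ^ 2`), and `E(𝔽_l)[2]` has order four. -/
structure FullTwo (q : ℤ × ℤ) (l : ℕ) : Prop where
  prime : l.Prime
  odd : l ≠ 2
  good : ¬ (l : ℤ) ∣ 4 * q.1 ^ 3 + 27 * q.2 ^ 2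
  full : redTwo q l = 4

/-- The integer `d` belongs to the class of twists given by the set `S` of primes and the signs `ε`:
`d` is squarefree and not `3` modulo `4`; it is divisible by the primes `l` in `S`, and the Legendre symbol
of `d / l` modulo `l` is `ε l`; the polynomial `x ^ 3 + A x + B` has no zero modulo the other odd
prime factors of `d`. -/
structure SignTwist (q : ℤ × ℤ) (S : Finset ℕ) (ε : ℕ → ℤ) (d : ℤ) : Prop where
  squarefree : Squarefree d
  two : d % 4 ≠ 3
  dvd : ∀ l ∈ S, (l : ℤ) ∣ d
  sign : ∀ l ∈ S, jacobiSym (d / l) l = ε l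
  noZero : ∀ p : ℕ, p.Prime → p ≠ 2 → (p : ℤ) ∣ d → p ∉ S → NoZero q p

end Pool.Agent.H30GS
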