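import Pool.Agent.H30GS.Cnt
import Pool.Agent.H30GS.Defs
import Pool.Agent.H30EV.Main

/-!
# The main theorem on the signs
-/

set_option autoImplicit false
set_option linter.all false

open Polynomial IsDedekindDomain WeierstrassCurve WeierstrassCurve.Affine NumberField Filter
open Pool.Agent.TH115.GD
open scoped Classical

namespace Pool.Agent.H30GS

open Pool.Agent.N874.PP (sW)
open Pool.Agent.N874.PM (SelR ShaR)
open Pool.Agent.N922.PQ Pool.Agent.N137.PV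
open Pool.Agent.H30EV
open Pool.Agent.H30GR

/-- The conclusions from the triviality of the 2-Selmer group. -/
theorem concl_of {M : Type} [Field M] [NumberField M] [IsGalois ℚ M] {n : ℕ}
    (hM : Module.finrank ℚ M = 2 ^ n) {A B d : ℤ} (hAB : 4 * A ^ 3 + 27 * B ^ 2 ≠ 0)
    (ha4 : A % 4 = 3) (hb4 : B % 4 = 3) (h2 : Unr M 2) (hd : d % 4 = 1 ∨ d % 4 = 2)
    (hsel : SelR (𝓞 M) (sW (((A * d ^ 2 : ℤ)) : M) (((B * d ^ 3 : ℤ)) : M))) :
    ShaR (𝓞 M) (sW (((A * d ^ 2 : ℤ)) : M) (((B * d ^ 3 : ℤ)) : M)) ∧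
    Subsingleton (Pt (sW (((A * d ^ 2 : ℤ)) : M) (((B * d ^ 3 : ℤ)) : M)) M) := by
  have h6M : (6 : M) ≠ 0 := by norm_num
  have hd0 : d ≠ 0 := by
    rintro rfl
    omega
  have hdM : 4 * (((A * d ^ 2 : ℤ)) : M) ^ 3 + 27 * (((B * d ^ 3 : ℤ)) : M) ^ 2 ≠ 0 := by
    have e : 4 * (A * d ^ 2) ^ 3 + 27 * (B * d ^ 3) ^ 2 = d ^ 6 * (4 * A ^ 3 + 27 * B ^ 2) := by
      ring
    have h1 : 4 * (A * d ^ 2) ^ 3 + 27 * (B * d ^ 3) ^ 2 ≠ 0 := by
      rw [e]
      exact mul_ne_zero (pow_ne_zero _ hd0) hAB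
    exact_mod_cast h1
  obtain ⟨h2', h3⟩ := Pool.Agent.N650.PM.gfr M (𝓞 M) _ _ h6M hdM hsel
  have hfin := Pool.Agent.N273.PQ.finm M _ _ hdM h2'
  have hodd : Odd (Nat.card (Pt (sW (((A * d ^ 2 : ℤ)) : M) (((B * d ^ 3 : ℤ)) : M)) M)) := by
    haveI := hfin
    exact odd_card (G := Pt (sW (((A * d ^ 2 : ℤ)) : M) (((B * d ^ 3 : ℤ)) : M)) M) h2'
  refine ⟨h3, ?_⟩
  obtain ⟨w, hw⟩ := exists_over (𝓞 M)
  have hv : w.valuation M 2 = WithZero.exp (-1 : ℤ) := by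
    have h2 := h2 w hw
    have e0 : ((2 : ℤ) : M) = 2 := by norm_num
    rwa [e0] at h2
  rcases hd with hd4 | hd4
  · obtain ⟨k, rfl⟩ : ∃ k, d = 4 * k + 1 := ⟨d / 4, by omega⟩
    refine Pool.Agent.N137.PV.tor M (𝓞 M) w hv _ _ ?_ ?_ hfin hodd
    · have h1 : Odd A := by
        rw [Int.odd_iff]
        omega
      refine h1.mul (Odd.pow ?_)
      rw [Int.odd_iff]
      omega
    · have e : A * (4 * k + 1) ^ 2 - B * (4 * k + 1) ^ 3 = (A - B) +
        4 * (A * (4 * k ^ 2 + 2 * k) - B * (16 * k ^ 3 + 12 * k ^ 2 + 3 * k)) := by ring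
      rw [e]
      exact dvd_add (by omega) (dvd_mul_right _ _)
  · obtain ⟨m, rfl⟩ : ∃ m, d = 2 * m := ⟨d / 2, by omega⟩
    have hm : Odd m := by
      rw [Int.odd_iff]
      omega
    have ho1 : Odd (A * m ^ 2) := by
      have h1 : Odd A := by
        rw [Int.odd_iff]
        omega
      exact h1.mul hm.pow
    have ho2 : Odd (B * m ^ 3) := by
      have h1 : Odd B := by
        rw [Int.odd_iff]
        omega
      exact h1.mul hm.pow
    have e1 : A * (2 * m) ^ 2 = 4 * (A * m ^ 2) := by ring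
    have e2 : B * (2 * m) ^ 3 = 8 * (B * m ^ 3) := by ring
    rw [e1, e2] at hfin hodd ⊢
    refine tor_gen (w.valuation M) hv _ _ (fun x y D hx h hD => ?_) hfin hodd
    exact dup_even (w.valuation M) hv _ _ (fun t ht => no_res M hM w hw ho1 ho2 t ht) x y D hx h hD

theorem selR_of {M : Type} [Field M] [NumberField M] {W : WeierstrassCurve M}
    (h : SelBd (𝓞 M) W 1) : SelR (𝓞 M) W := by
  intro f hf h2f hloc
  by_contra hcon
  obtain ⟨g, hg⟩ : ∃ g : (Sep M ≃ₐ[M] Sep M) → Pt W (Sep M), g = fun σ => f σ - f σ := ⟨_, rfl⟩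
  have hg0 : ∀ σ, g σ = 0 := fun σ => by rw [hg]; exact sub_self _
  have h0 : IsCoc W g := by
    rw [hg]
    exact coc_sub hf hf
  have h1 := h 2 (fun i => if i = 0 then f else g) (fun i => by
      split_ifs
      · exact hf
      · exact h0) (fun i σ => by
      split_ifs
      · exact h2f σ
      · rw [hg0]
        exact smul_zero _) (fun i v => by
      split_ifs
      · exact hloc v
      · obtain ⟨ι, P, hP⟩ := hloc v
        refine ⟨ι, 0, fun τ σ _ => ?_⟩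
        rw [hg0, map_zero, map_zero, sub_zero]) (fun i j hij => by
      obtain ⟨P, hP, hP2⟩ := hij
      by_cases hi : i = 0
      · by_cases hj : j = 0
        · rw [hi, hj]
        · exfalso
          apply hcon
          refine ⟨P, hP, fun σ => ?_⟩
          have := hP2 σ
          rw [if_pos hi, if_neg hj, hg0, sub_zero] at this
          exact this
      · by_cases hj : j = 0
        · exfalso
          apply hcon
          refine ⟨-P, by rw [smul_neg, hP, neg_zero], fun σ => ?_⟩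
          have := hP2 σ
          rw [if_neg hi, if_pos hj, hg0, zero_sub] at this
          rw [map_neg]
          have e : f σ = -(act W (rs M σ) P - P) := by rw [← this, neg_neg]
          rw [e]
          abel
        · apply Fin.ext
          have h3 : i.val ≠ 0 := fun h => hi (Fin.ext h)
          have h4 : j.val ≠ 0 := fun h => hj (Fin.ext h)
          have := i.2
          have := j.2
          omega)
  omega

/-- The twist has trivial groups. -/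
theorem triv_tw {A B d : ℤ} (hAB : 4 * A ^ 3 + 27 * B ^ 2 ≠ 0) (ha4 : A % 4 = 3) (hb4 : B % 4 = 3)
    (hd : d % 4 = 1 ∨ d % 4 = 2)
    (h : SelBd (𝓞 ℚ) (sW (((A * d ^ 2 : ℤ)) : ℚ) (((B * d ^ 3 : ℤ)) : ℚ)) 1) :
    Trivial ℚ (twist (A, B) d) := by
  have hd0 : d ≠ 0 := by
    rintro rfl
    omega
  haveI := isGal_q
  have hsel := selR_of h
  obtain ⟨h1, h2⟩ := concl_of finrank_q hAB ha4 hb4 unr_rat hd hsel
  refine trivial_of ?_ hsel h1 h2
  have e : 4 * (A * d ^ 2) ^ 3 + 27 * (B * d ^ 3) ^ 2 = d ^ 6 * (4 * A ^ 3 + 27 * B ^ 2) := by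
    ring
  have h1 : 4 * (A * d ^ 2) ^ 3 + 27 * (B * d ^ 3) ^ 2 ≠ 0 := by
    rw [e]
    exact mul_ne_zero (pow_ne_zero _ hd0) hAB
  exact_mod_cast h1

theorem spl3_of {A B : ℤ} {l : ℕ} (h : FullTwo (A, B) l) : Spl3 A B l where
  pr := h.prime
  ne2 := h.odd
  gd := h.good
  three := by
    have h1 : 1 + nz A B l = 4 := h.full
    omega

/-- The signs for a curve. -/
theorem signs_of {A B : ℤ} (hAB : 4 * A ^ 3 + 27 * B ^ 2 ≠ 0) (ha4 : A % 4 = 3) (hb4 : B % 4 = 3)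
    (h : GSelS A B) (L : List ℕ) (hL : L.Nodup) (hS : ∀ l ∈ L, FullTwo (A, B) l) :
    ∃ ε : ℕ → ℤ, (∀ l ∈ L, ε l = 1 ∨ ε l = -1) ∧
      ∀ n : ℕ, ∀ d : ℤ, SignTwist (A, B) (L.take n).toFinset ε d → Trivial ℚ (twist (A, B) d) := by
  obtain ⟨ε, hε, hd⟩ := h L hL fun l hl => spl3_of (hS l hl)
  refine ⟨ε, hε, fun n d hd' => ?_⟩
  have h2 := hd'.two
  have h3 := sqfree_mod hd'.squarefree
  have hd4 : d % 4 = 1 ∨ d % 4 = 2 := by omega
  refine triv_tw hAB ha4 hb4 hd4 (hd n d ⟨hd'.squarefree, hd4, fun l hl => ⟨hd'.dvd l hl,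
    hd'.sign l hl⟩, fun P hP hPd => ?_⟩)
  obtain ⟨p, hp, rfl⟩ := nat_isPr hP
  by_cases hp2 : p = 2
  · subst hp2
    left
    refine ⟨hP, fun z hz => ?_⟩
    have h4 : (2 : ℤ) ∣ z ^ 3 + A * z + B := hz
    have hA : A = 2 * (A / 2) + 1 := by omega
    have hB : B = 2 * (B / 2) + 1 := by omega
    rcases Int.even_or_odd z with ⟨k, hk⟩ | ⟨k, hk⟩
    · rw [hk, hA, hB] at h4
      have e : (k + k) ^ 3 + (2 * (A / 2) + 1) * (k + k) + (2 * (B / 2) + 1) =
          2 * (4 * k ^ 3 + (2 * (A / 2) + 1) * k + B / 2) + 1 := by ring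
      rw [e] at h4
      omega
    · rw [hk, hA, hB] at h4
      have e : (2 * k + 1) ^ 3 + (2 * (A / 2) + 1) * (2 * k + 1) + (2 * (B / 2) + 1) =
          2 * (4 * k ^ 3 + 6 * k ^ 2 + 3 * k + (A / 2) * (2 * k + 1) + k + B / 2 + 1) + 1 := by ring
      rw [e] at h4
      omega
  · by_cases hpS : p ∈ (L.take n).toFinset
    · exact Or.inr ⟨p, hpS, rfl⟩
    · exact Or.inl ((mem_irr hp (A, B)).2 (hd'.noZero p hp hp2 hPd hpS))

/-- **The main theorem** on the signs. -/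
theorem main_signs : ∃ c : ℝ, 0 < c ∧ ∀ᶠ X : ℕ in atTop, 0 < (Curves X).ncard ∧
    c * ((Curves X).ncard : ℝ) ≤ ({q ∈ Curves X | ∀ L : List ℕ, L.Nodup →
      (∀ l ∈ L, FullTwo q l) → ∃ ε : ℕ → ℤ, (∀ l ∈ L, ε l = 1 ∨ ε l = -1) ∧
        ∀ n : ℕ, ∀ d : ℤ, SignTwist q (L.take n).toFinset ε d →
          Trivial ℚ (twist q d)}.ncard : ℝ) := by
  haveI := isGal_q
  obtain ⟨c, hc, H₀, h⟩ := propS ℚ unr_rat ∅ (by
    intro P hP
    exact absurd hP (Finset.notMem_empty _))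
  refine ⟨c, hc, ?_⟩
  filter_upwards [eventually_ge_atTop H₀, eventually_ge_atTop 27] with X hX hX'
  refine ⟨curves_pos hX', ?_⟩
  obtain ⟨-, h3⟩ := h X hX
  rw [← curves_eq] at h3
  refine h3.trans ?_
  have hsub : {p : ℤ × ℤ | Crv X p.1 p.2 ∧ GoodS2 ℚ ∅ p} ⊆
      {q ∈ Curves X | ∀ L : List ℕ, L.Nodup →
      (∀ l ∈ L, FullTwo q l) → ∃ ε : ℕ → ℤ, (∀ l ∈ L, ε l = 1 ∨ ε l = -1) ∧
        ∀ n : ℕ, ∀ d : ℤ, SignTwist q (L.take n).toFinset ε d →
          Trivial ℚ (twist q d)} := by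
    rintro ⟨A, B⟩ ⟨hq, hg⟩
    have hq' := (crv_iff X _).1 hq
    exact ⟨hq', signs_of hq'.1.elliptic hg.sel.a4 hg.sel.b4 hg.sg⟩
  exact_mod_cast Set.ncard_le_ncard hsub ((curves_fin X).subset fun q hq => hq.1)

end Pool.Agent.H30GS
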