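import Mathlib

/-!
# Square classes of `ℚ_p`, `p` odd, as pairs of elements of `ZMod 2`
-/

set_option autoImplicit false
set_option linter.all false

namespace Pool.Agent.H30GS

variable {p : ℕ} [Fact p.Prime]

/-- An element near `1` is a square. -/
theorem sq_near (h2 : p ≠ 2) {x : ℚ_[p]} (hx : ‖x - 1‖ < 1) : IsSquare x := by
  have hp : p.Prime := Fact.out
  have hx1 : ‖x‖ ≤ 1 := by
    have : x = (x - 1) + 1 := by ring
    rw [this]
    refine (Padic.nonarchimedean _ _).trans (max_le hx.le ?_)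
    rw [norm_one]
  obtain ⟨y, hy⟩ : ∃ y : ℤ_[p], (y : ℚ_[p]) = x := ⟨⟨x, hx1⟩, rfl⟩
  obtain ⟨F, hF⟩ : ∃ F : Polynomial ℤ_[p], F = Polynomial.X ^ 2 - Polynomial.C y := ⟨_, rfl⟩
  have hF0 : Polynomial.aeval (1 : ℤ_[p]) F = 1 - y := by
    rw [hF]; simp
  have hF1 : Polynomial.aeval (1 : ℤ_[p]) (Polynomial.derivative F) = ((2 : ℤ) : ℤ_[p]) := by
    rw [hF]; simp; norm_num
  have hn1 : ‖((2 : ℤ) : ℤ_[p])‖ = 1 := by
    refine le_antisymm (PadicInt.norm_le_one _) (not_lt.1 fun h => ?_)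
    rw [PadicInt.norm_int_lt_one_iff_dvd] at h
    apply h2
    have h4 : (p : ℤ) ∣ ((2 : ℕ) : ℤ) := h
    rw [Int.natCast_dvd_natCast] at h4
    exact (Nat.prime_dvd_prime_iff_eq hp Nat.prime_two).1 h4
  have hn0 : ‖(1 - y : ℤ_[p])‖ < 1 := by
    rw [PadicInt.norm_def]
    push_cast
    rw [hy, norm_sub_rev]
    exact hx
  obtain ⟨z, hz, -, -⟩ := hensels_lemma (p := p) (F := F) (a := 1) (by
    rw [hF0, hF1, hn1, one_pow]; exact hn0)
  rw [hF] at hz
  simp only [Polynomial.coe_aeval_eq_eval, Polynomial.eval_sub, Polynomial.eval_pow,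
    Polynomial.eval_X, Polynomial.eval_C] at hz
  refine ⟨(z : ℚ_[p]), ?_⟩
  have h3 : y = z * z := by linear_combination -hz
  rw [← hy, h3]
  push_cast
  rfl

theorem sq_near' (h2 : p ≠ 2) {x y : ℚ_[p]} (hx : ‖x - y‖ < ‖y‖) : IsSquare (x * y) := by
  have hy : y ≠ 0 := by
    rintro rfl
    rw [norm_zero] at hx
    exact absurd hx (not_lt.2 (norm_nonneg _))
  have h1 : IsSquare (x / y) := by
    apply sq_near h2
    have e : x / y - 1 = (x - y) / y := by field_simp
    rw [e, norm_div]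
    exact (div_lt_one (norm_pos_iff.2 hy)).2 hx
  obtain ⟨s, hs⟩ := h1
  refine ⟨s * y, ?_⟩
  have : x = s * s * y := by
    rw [← hs]
    field_simp
  rw [this]
  ring

/-- The product of two units which are not squares is a square. -/
theorem nsq_mul (h2 : p ≠ 2) {x y : ℚ_[p]} (hx : ‖x‖ = 1) (hy : ‖y‖ = 1)
    (hxs : ¬ IsSquare x) (hys : ¬ IsSquare y) : IsSquare (x * y) := by
  have hp : p.Prime := Fact.out
  have key : ∀ z : ℚ_[p], ‖z‖ = 1 → ∃ m : ℕ, ‖z - m‖ < 1 ∧ ‖(m : ℚ_[p])‖ = 1 ∧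
      ((m : ZMod p)) ≠ 0 := by
    intro z hz
    obtain ⟨w, hw⟩ : ∃ w : ℤ_[p], (w : ℚ_[p]) = z := ⟨⟨z, hz.le⟩, rfl⟩
    obtain ⟨m, -, hm⟩ := PadicInt.exists_mem_range w
    have h3 : ‖z - m‖ < 1 := by
      have h4 : ‖w - (m : ℤ_[p])‖ < 1 := by
        rw [PadicInt.maximalIdeal_eq_span_p, Ideal.mem_span_singleton] at hm
        exact PadicInt.norm_lt_one_iff_dvd _ |>.2 hm
      rw [PadicInt.norm_def] at h4
      push_cast at h4
      rw [hw] at h4
      exact h4
    have h5 : ‖(m : ℚ_[p])‖ = 1 := by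
      have h6 : ‖(m : ℚ_[p]) - z‖ < ‖z‖ := by rw [norm_sub_rev, hz]; exact h3
      rw [← hz]
      have h7 := Padic.add_eq_max_of_ne (q := (m : ℚ_[p]) - z) (r := z) h6.ne
      rw [sub_add_cancel, max_eq_right h6.le] at h7
      exact h7
    refine ⟨m, h3, h5, fun h6 => ?_⟩
    rw [ZMod.natCast_eq_zero_iff] at h6
    have h7 : ‖((m : ℤ) : ℚ_[p])‖ < 1 := by
      rw [Padic.norm_intCast_lt_one_iff]
      exact_mod_cast h6
    rw [Int.cast_natCast, h5] at h7
    exact lt_irrefl _ h7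
  obtain ⟨m, hm, hm1, hm0⟩ := key x hx
  obtain ⟨n, hn, hn1, hn0⟩ := key y hy
  -- if `m` is a square modulo `p` then `x` is a square
  have key2 : ∀ (z : ℚ_[p]) (k : ℕ), ‖z - k‖ < 1 → ‖(k : ℚ_[p])‖ = 1 → IsSquare ((k : ZMod p)) →
      IsSquare z := by
    intro z k h3 h4 h5
    obtain ⟨r, hr⟩ := h5
    obtain ⟨s, rfl⟩ := ZMod.natCast_zmod_surjective r
    have h6 : ((k : ℤ) - s * s : ℤ) ∈ {t : ℤ | (p : ℤ) ∣ t} := by
      show (p : ℤ) ∣ _
      rw [← ZMod.intCast_zmod_eq_zero_iff_dvd]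
      push_cast
      rw [hr]
      ring
    have h7 : ‖(k : ℚ_[p]) - s * s‖ < 1 := by
      have h8 := (Padic.norm_intCast_lt_one_iff (p := p)).2 h6
      push_cast at h8
      exact h8
    have h9 : ‖z - s * s‖ < 1 := by
      have e : z - s * s = (z - k) + (k - s * s) := by ring
      rw [e]
      exact (Padic.nonarchimedean _ _).trans_lt (max_lt h3 h7)
    have h10 : ‖(s : ℚ_[p]) * s‖ = 1 := by
      have h6 : ‖(s : ℚ_[p]) * s - k‖ < ‖(k : ℚ_[p])‖ := by rw [norm_sub_rev, h4]; exact h7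
      rw [← h4]
      have h7 := Padic.add_eq_max_of_ne (q := (s : ℚ_[p]) * (s : ℚ_[p]) - (k : ℚ_[p])) (r := (k : ℚ_[p])) h6.ne
      rw [sub_add_cancel, max_eq_right h6.le] at h7
      exact h7
    have hs0 : (s : ℚ_[p]) ≠ 0 := by
      intro h
      rw [h, mul_zero, norm_zero] at h10
      exact zero_ne_one h10
    obtain ⟨u, hu⟩ := sq_near' h2 (x := z) (y := s * s) (by rw [h10]; exact h9)
    refine ⟨u / s, ?_⟩
    field_simp
    linear_combination hu
  have hmn : IsSquare ((m * n : ℕ) : ZMod p) := by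
    have h3 : ¬ IsSquare (m : ZMod p) := fun h => hxs (key2 x m hm hm1 h)
    have h4 : ¬ IsSquare (n : ZMod p) := fun h => hys (key2 y n hn hn1 h)
    have h5 : quadraticChar (ZMod p) (m : ZMod p) = -1 :=
      quadraticChar_neg_one_iff_not_isSquare.2 h3
    have h6 : quadraticChar (ZMod p) (n : ZMod p) = -1 :=
      quadraticChar_neg_one_iff_not_isSquare.2 h4
    have h7 : quadraticChar (ZMod p) ((m * n : ℕ) : ZMod p) = 1 := by
      rw [Nat.cast_mul, map_mul, h5, h6]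
      norm_num
    refine (quadraticChar_one_iff_isSquare ?_).1 h7
    rw [Nat.cast_mul]
    exact mul_ne_zero hm0 hn0
  refine key2 (x * y) (m * n) ?_ ?_ hmn
  · have e : x * y - ((m * n : ℕ) : ℚ_[p]) = (x - m) * y + m * (y - n) := by
      push_cast
      ring
    rw [e]
    refine (Padic.nonarchimedean _ _).trans_lt (max_lt ?_ ?_)
    · rw [norm_mul, hy, mul_one]
      exact hm
    · rw [norm_mul, hm1, one_mul]
      exact hn
  · push_cast
    rw [norm_mul, hm1, hn1, one_mul]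

/-- The parity of the valuation. -/
noncomputable def vv (x : ℚ_[p]) : ZMod 2 := ((x.valuation : ℤ) : ZMod 2)

/-- The unit part. -/
noncomputable def up (x : ℚ_[p]) : ℚ_[p] := x * (p : ℚ_[p]) ^ (-x.valuation)

open scoped Classical in
/-- The class of the unit part. -/
noncomputable def cc (x : ℚ_[p]) : ZMod 2 := if IsSquare (up x) then 0 else 1

theorem p_ne : (p : ℚ_[p]) ≠ 0 := by
  exact_mod_cast (Fact.out : p.Prime).ne_zero

theorem up_norm {x : ℚ_[p]} (hx : x ≠ 0) : ‖up x‖ = 1 := by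
  have hp_pos : (0 : ℝ) < p := by exact_mod_cast (Fact.out : p.Prime).pos
  unfold up
  rw [norm_mul, Padic.norm_eq_zpow_neg_valuation hx, Padic.norm_p_zpow, neg_neg,
    ← zpow_add₀ hp_pos.ne', neg_add_cancel, zpow_zero]

theorem up_mul {x y : ℚ_[p]} (hx : x ≠ 0) (hy : y ≠ 0) : up (x * y) = up x * up y := by
  unfold up
  rw [Padic.valuation_mul hx hy, neg_add, zpow_add₀ p_ne]
  ring

theorem vv_mul {x y : ℚ_[p]} (hx : x ≠ 0) (hy : y ≠ 0) : vv (x * y) = vv x + vv y := by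
  unfold vv
  rw [Padic.valuation_mul hx hy, Int.cast_add]

theorem cc_mul (h2 : p ≠ 2) {x y : ℚ_[p]} (hx : x ≠ 0) (hy : y ≠ 0) :
    cc (x * y) = cc x + cc y := by
  unfold cc
  rw [up_mul hx hy]
  have nx := up_norm hx
  have ny := up_norm hy
  have ux : up x ≠ 0 := by
    intro h
    rw [h, norm_zero] at nx
    exact zero_ne_one nx
  have uy : up y ≠ 0 := by
    intro h
    rw [h, norm_zero] at ny
    exact zero_ne_one ny
  by_cases h1 : IsSquare (up x) <;> by_cases h3 : IsSquare (up y)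
  · rw [if_pos (h1.mul h3), if_pos h1, if_pos h3, add_zero]
  · rw [if_neg, if_pos h1, if_neg h3, zero_add]
    rintro h4
    apply h3
    have := h4.div h1
    rwa [mul_div_cancel_left₀ _ ux] at this
  · rw [if_neg, if_neg h1, if_pos h3, add_zero]
    rintro h4
    apply h1
    have := h4.div h3
    rwa [mul_div_cancel_right₀ _ uy] at this
  · rw [if_pos (nsq_mul h2 nx ny h1 h3), if_neg h1, if_neg h3]
    decide

theorem sq_iff {x : ℚ_[p]} (hx : x ≠ 0) : IsSquare x ↔ vv x = 0 ∧ cc x = 0 := by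
  constructor
  · rintro ⟨s, rfl⟩
    have hs : s ≠ 0 := left_ne_zero_of_mul hx
    constructor
    · rw [vv_mul hs hs]
      exact CharTwo.add_self_eq_zero _
    · unfold cc
      rw [if_pos]
      rw [up_mul hs hs]
      exact ⟨_, rfl⟩
  · rintro ⟨h1, h3⟩
    unfold cc at h3
    have h4 : IsSquare (up x) := by
      by_contra h
      rw [if_neg h] at h3
      exact one_ne_zero h3
    unfold vv at h1
    rw [ZMod.intCast_zmod_eq_zero_iff_dvd] at h1
    obtain ⟨k, hk⟩ := h1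
    have h5 : IsSquare ((p : ℚ_[p]) ^ x.valuation) := by
      refine ⟨(p : ℚ_[p]) ^ k, ?_⟩
      rw [← zpow_add₀ p_ne, hk]
      congr 1
      push_cast
      ring
    have h6 := h4.mul h5
    unfold up at h6
    rwa [mul_assoc, ← zpow_add₀ p_ne, neg_add_cancel, zpow_zero, mul_one] at h6

theorem cl_inv (h2 : p ≠ 2) {x : ℚ_[p]} (hx : x ≠ 0) : vv x⁻¹ = vv x ∧ cc x⁻¹ = cc x := by
  have h1 : IsSquare (x * x⁻¹) := by
    rw [mul_inv_cancel₀ hx]
    exact ⟨1, by ring⟩
  have h3 := (sq_iff (mul_ne_zero hx (inv_ne_zero hx))).1 h1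
  rw [vv_mul hx (inv_ne_zero hx), cc_mul h2 hx (inv_ne_zero hx)] at h3
  constructor
  · have := h3.1
    rw [CharTwo.add_eq_zero] at this
    exact this.symm
  · have := h3.2
    rw [CharTwo.add_eq_zero] at this
    exact this.symm

/-- Elements which are near to each other have the same class. -/
theorem cl_near (h2 : p ≠ 2) {x y : ℚ_[p]} (h : ‖x - y‖ < ‖y‖) : vv x = vv y ∧ cc x = cc y := by
  have hy : y ≠ 0 := by
    rintro rfl
    rw [norm_zero] at h
    exact absurd h (not_lt.2 (norm_nonneg _))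
  have hx : x ≠ 0 := by
    rintro rfl
    rw [zero_sub, norm_neg] at h
    exact lt_irrefl _ h
  have h3 := (sq_iff (mul_ne_zero hx hy)).1 (sq_near' h2 h)
  rw [vv_mul hx hy, cc_mul h2 hx hy, CharTwo.add_eq_zero, CharTwo.add_eq_zero] at h3
  exact h3

theorem vv_unit {x : ℚ_[p]} (h : ‖x‖ = 1) : vv x = 0 := by
  have hx : x ≠ 0 := by
    rintro rfl
    rw [norm_zero] at h
    exact zero_ne_one h
  unfold vv
  rw [Padic.norm_eq_zpow_neg_valuation hx] at h
  have hp1 : (1 : ℝ) < p := by exact_mod_cast (Fact.out : p.Prime).one_lt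
  have h3 : -x.valuation = 0 := by
    by_contra hne
    rcases lt_or_gt_of_ne hne with h4 | h4
    · exact (zpow_lt_one_of_neg₀ hp1 h4).ne h
    · exact (one_lt_zpow₀ hp1 h4).ne' h
  have h4 : x.valuation = 0 := by omega
  rw [h4, Int.cast_zero]

end Pool.Agent.H30GS
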