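import Pool.Agent.H30GS.Zero

/-!
# Counting
-/

set_option autoImplicit false
set_option linter.all false

open Polynomial IsDedekindDomain WeierstrassCurve WeierstrassCurve.Affine NumberField
open Pool.Agent.TH115.GD
open scoped Classical IntermediateField

namespace Pool.Agent.H30GS

open Pool.Agent.N922.PQ
open Pool.Agent.H30EV
open Pool.Agent.H30GR
open Pool.Agent.N692.PMTOW
open Pool.Agent.N874.PP (Tup chA chB gq tau Two Ev Sq1 U0 sW IsBeta Rt)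
open Pool.Agent.N874.PM (PLoc Lies SelR ShaR)

/-- Both theorems on the Selmer groups. -/
theorem both (H : Parts2) (hI : S_INT) {κ : ℕ} (hLB : LBk κ) {a b : ℤ} {X' : ℕ}
    {S T : Finset ℤ} {s A B : ℤ → ℤ} (hS : GoodS S s)
    (hF : Fam X' S s T A B a b) (ha4 : a % 4 = 3) (hb4 : b % 4 = 3)
    (hnb : ¬ LBad κ X' S s a b) (hT : GoodT T A B) :
    ∃ J ⊆ S, GSelR (a * (∏ Q ∈ J, Q) ^ 2) (b * (∏ Q ∈ J, Q) ^ 3) ∧
      GSelS (a * (∏ Q ∈ J, Q) ^ 2) (b * (∏ Q ∈ J, Q) ^ 3) := by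
  have hnt2 : ∀ z : ℤ, ¬ (2 : ℤ) ∣ z ^ 3 + a * z + b := fam_nt hT hF hT.1
  -- the cubic field
  have hirr : Irreducible (ff ℚ a b) := by
    have hone : (X ^ 3 + C ((((a * 1 ^ 2 : ℤ)) : ℚ)) * X +
      C ((((b * 1 ^ 3 : ℤ)) : ℚ)) : ℚ[X]) = ff ℚ a b := by
      rw [one_pow, one_pow, mul_one, mul_one]
      rfl
    rw [← hone]
    exact irr_tw (algebraMap ℚ ℚ_[2]) hnt2 one_ne_zero
  obtain ⟨L, iF, iN, θ, hc, hu⟩ := exists_cub hirr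
  obtain ⟨J, hJ, hsel⟩ := core2 (L := L) (𝓞 L) H.p.cls H.p.exq H.p.ns H.p.lin H.p.recp H.p.plm
    H.p.sd H.p.ttv hLB hc hS hT hF hnb
  exact ⟨J, hJ, gselR_of H hI hc hu hS hF ha4 hb4 hT hJ hsel,
    gselS H hI hc hS hF hT hJ hsel ha4 hb4⟩

/-! ### Counting -/

/-- The good curves. -/
structure GoodS2 (M₀ : Type) [Field M₀] [NumberField M₀] (T₀ : Finset ℤ) (p : ℤ × ℤ) : Prop where
  ir : ∀ P ∈ T₀, P ∈ irr p.1 p.2
  adm : Adm M₀ p.1 p.2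
  sel : GSelR p.1 p.2
  sg : GSelS p.1 p.2

/-- The main theorem with a bound of order `X ^ 5`. -/
theorem mainS (M₀ : Type) [Field M₀] [NumberField M₀] [IsGalois ℚ M₀] (hur : Unr M₀ 2)
    (T₀ : Finset ℤ) (hT₀ : ∀ P ∈ T₀, IsPr P) :
    ∃ (P X₀ : ℕ) (c : ℝ), 0 < c ∧ 1 ≤ P ∧ ∀ X : ℕ, X₀ ≤ X → ∀ H : ℕ, 27 * (X * P) ^ 6 ≤ H →
      c * (X : ℝ) ^ 5 ≤ ({p : ℤ × ℤ | Crv H p.1 p.2 ∧ GoodS2 M₀ T₀ p}.ncard : ℝ) := by
  obtain ⟨κ, hLB'⟩ := lb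
  obtain ⟨γ, g, δ, hG, hdeg⟩ := Pool.Agent.N40.PQ.gen M₀
  -- the prime divisors of `δ`
  obtain ⟨T₁, hT₁, hδ₁⟩ : ∃ T : Finset ℤ, (∀ P ∈ T, IsPr P) ∧
      ∀ P : ℤ, IsPr P → P ∣ δ → P ∈ T := by
    have hf : {P : ℤ | IsPr P ∧ P ∣ δ}.Finite := by
      refine (Set.finite_Icc (-|δ|) |δ|).subset ?_
      rintro P ⟨-, h⟩
      have h3 : |P| ≤ |δ| := Int.le_of_dvd (abs_pos.2 hG.ne) ((abs_dvd_abs P δ).2 h)
      exact abs_le.1 h3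
    refine ⟨hf.toFinset, fun P hP => ?_, fun P h1 h2 => ?_⟩
    · exact (hf.mem_toFinset.1 hP).1
    · exact hf.mem_toFinset.2 ⟨h1, h2⟩
  obtain ⟨T, A, B, hTT, hT⟩ := Pool.Agent.N954.PQ.tch (T₀ ∪ T₁) (by
    intro P hP
    rcases Finset.mem_union.1 hP with h | h
    · exact hT₀ P h
    · exact hT₁ P h)
  have hδ : ∀ P : ℤ, IsPr P → P ∣ δ → P ∈ T := fun P h1 h2 =>
    hTT (Finset.mem_union_right _ (hδ₁ P h1 h2))
  have hT0T : T₀ ⊆ T := fun P hP => hTT (Finset.mem_union_left _ hP)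
  obtain ⟨S, s, c, hS, hdis, hsp, hc, X₀, hX₀⟩ := good_card3 κ hT
    (fun Q => SplitMod Q g) (Pool.Agent.N40.PQ.spl M₀ γ g δ hG hdeg T)
  have hSpos : 0 < ∏ Q ∈ S, Q := Finset.prod_pos fun Q hQ => (hS Q hQ).1.1
  refine ⟨(∏ Q ∈ S, Q).toNat, X₀, c / 2 ^ S.card,
    by positivity, by omega, fun X hX Hh hHh => ?_⟩
  have hN := hX₀ X hX
  set Hs := {p : ℤ × ℤ | Crv Hh p.1 p.2 ∧ GoodS2 M₀ T₀ p} with hH
  set G := {p : ℤ × ℤ | (Fam X S s T A B p.1 p.2 ∧ p.1 % 4 = 3 ∧ p.2 % 4 = 3) ∧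
    ¬ LBad κ X S s p.1 p.2} with hG'
  have hHf : Hs.Finite := (crv_fin Hh).subset fun p hp => hp.1
  have hbd : 27 * ((X : ℤ) * ∏ Q ∈ S, Q) ^ 6 ≤ Hh := by
    have h1 : ((27 * (X * (∏ Q ∈ S, Q).toNat) ^ 6 : ℕ) : ℤ) ≤ Hh := by exact_mod_cast hHh
    have e1 : (((∏ Q ∈ S, Q).toNat : ℕ) : ℤ) = ∏ Q ∈ S, Q := Int.toNat_of_nonneg hSpos.le
    rw [Nat.cast_mul, Nat.cast_pow, Nat.cast_mul, e1] at h1
    exact_mod_cast h1
  have hcard := card_fib hHf S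
    (fun (J : Finset ℤ) (p : ℤ × ℤ) => (p.1 * (∏ Q ∈ J, Q) ^ 2, p.2 * (∏ Q ∈ J, Q) ^ 3)) (G := G) (by
      rintro p ⟨⟨hpF, hpa, hpb⟩, hnb⟩
      obtain ⟨J, hJ, hsel, hsg⟩ := both parts2 Pool.Agent.N849.PQ.int hLB' hS hpF hpa hpb hnb hT
      refine ⟨J, hJ, ?_⟩
      have hcrv := Pool.Agent.N707.PQ.crv X Hh S T s A B p.1 p.2 hS hT hpF J hJ hbd
      have hJp : ∀ Q ∈ J, IsPr Q := fun Q hQ => (hS Q (hJ hQ)).1
      have hirr2 : irr (p.1 * (∏ Q ∈ J, Q) ^ 2) (p.2 * (∏ Q ∈ J, Q) ^ 3) = irr p.1 p.2 :=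
        irr_mul fun P hP hPD => hpF.rb P (hJ (prime_prod hJp hP hPD))
      have hTirr : ∀ P ∈ T, P ∈ irr p.1 p.2 := fun P hP =>
        ⟨(hT.2.2 P hP).1, fam_nt hT hpF hP⟩
      refine ⟨hcrv, ?_, ?_, hsel, hsg⟩
      · intro P hP
        show P ∈ irr (p.1 * (∏ Q ∈ J, Q) ^ 2) (p.2 * (∏ Q ∈ J, Q) ^ 3)
        rw [hirr2]
        exact hTirr P (hT0T hP)
      · refine ⟨hur, fun P hP hPi => ?_, fun P hP hPA hPB => ?_⟩
        · refine unr_of_gen hG hP fun hPδ => hPi ?_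
          show P ∈ irr (p.1 * (∏ Q ∈ J, Q) ^ 2) (p.2 * (∏ Q ∈ J, Q) ^ 3)
          rw [hirr2]
          exact hTirr P (hδ P hP hPδ)
        · -- `P ∈ J`
          have hPJ : P ∈ J := by
            by_contra hPJ
            have hnD : ¬ P ∣ ∏ Q ∈ J, Q := fun h => hPJ (prime_prod hJp hP h)
            have h1 : P ∣ p.1 := by
              rcases hP.2.dvd_or_dvd hPA with h | h
              · exact h
              · exact absurd (hP.2.dvd_of_dvd_pow h) hnD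
            have h2 : P ∣ p.2 := by
              rcases hP.2.dvd_or_dvd hPB with h | h
              · exact h
              · exact absurd (hP.2.dvd_of_dvd_pow h) hnD
            exact coprime_ab hpF.sq hP h1 h2
          have hPS := hJ hPJ
          refine res_of_gen hG hP (fun hPδ => ?_) (hsp P hPS)
          exact Finset.disjoint_left.1 hdis hPS (hδ P hP hPδ)) (by
      intro J hJ x hx y hy hxy
      have hD0 : (∏ Q ∈ J, Q) ≠ 0 := by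
        rw [Finset.prod_ne_zero_iff]
        exact fun Q hQ => (hS Q (hJ hQ)).1.2.ne_zero
      rw [Prod.mk.injEq] at hxy
      exact twist_inj hD0 hxy.1 hxy.2)
  have hcard' : (G.ncard : ℝ) ≤ 2 ^ S.card * Hs.ncard := by exact_mod_cast hcard
  calc c / 2 ^ S.card * (X : ℝ) ^ 5
      = c * (X : ℝ) ^ 5 / 2 ^ S.card := by ring
    _ ≤ (G.ncard : ℝ) / 2 ^ S.card := by gcongr
    _ ≤ (2 ^ S.card * Hs.ncard) / 2 ^ S.card := by gcongr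
    _ = Hs.ncard := by field_simp

/-- A positive proportion of all elliptic curves is good. -/
theorem propS (M₀ : Type) [Field M₀] [NumberField M₀] [IsGalois ℚ M₀] (hur : Unr M₀ 2)
    (T₀ : Finset ℤ) (hT₀ : ∀ P ∈ T₀, IsPr P) :
    ∃ c : ℝ, 0 < c ∧ ∃ H₀ : ℕ, ∀ H ≥ H₀, {p : ℤ × ℤ | Crv H p.1 p.2}.Finite ∧
    c * ({p : ℤ × ℤ | Crv H p.1 p.2}.ncard : ℝ) ≤
      ({p : ℤ × ℤ | Crv H p.1 p.2 ∧ GoodS2 M₀ T₀ p}.ncard : ℝ) := by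
  obtain ⟨P, X₀, c, hc, hP, h⟩ := mainS M₀ hur T₀ hT₀
  exact Pool.Agent.N607.PQ.cnt (fun p => GoodS2 M₀ T₀ p) P X₀ c hc hP
    fun X hX Hh hHh => h X hX Hh hHh

end Pool.Agent.H30GS
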