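import Pool.Agent.H30GS.Ev
import Pool.Agent.N922.PQ.Final

/-!
# The signs at the primes with three zeros
-/

set_option autoImplicit false
set_option linter.all false

open Polynomial IsDedekindDomain NumberField Module
open scoped Classical

namespace Pool.Agent.H30GS

open Pool.Agent.N922.PQ
open Pool.Agent.H30EV
open Pool.Agent.H30GR
open Pool.Agent.N874.PP (Ev Sq1 U0)
open Pool.Agent.N900.PQ (eq_of_ov)

/-- An odd prime of good reduction modulo which the polynomial has three zeros. -/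
structure Spl3 (a b : ℤ) (l : ℕ) : Prop where
  pr : l.Prime
  ne2 : l ≠ 2
  gd : ¬ (l : ℤ) ∣ dsc a b
  three : 3 ≤ nz a b l

section core

variable {L : Type} [Field L] [NumberField L] {a b : ℤ} {θ : L} {X : ℕ} {Sf T J : Finset ℤ}
  {s A B : ℤ → ℤ}

/-- The local condition at `l`, of sign `c`. -/
def KA (hc : IsCub a b θ) (c : ZMod 2) (l : ℕ) (α : L) : Prop :=
  ∀ (_ : Fact l.Prime) (t : Fin 3 → ℚ_[l]) (hR : Rts a b t), KK t c (vals hc hR α)

/-- The classes with the conditions of signs `e` at the primes in `S`, no condition at the primes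
in `R` which are not in `S`. -/
structure VV (hc : IsCub a b θ) (J : Finset ℤ) (R S : Finset ℕ) (e : ℕ → ZMod 2) (α : L) : Prop where
  ne : α ≠ 0
  nm : IsSquare (Algebra.norm ℚ α)
  c0 : C0 a b J R θ α
  kk : ∀ l ∈ S, KA hc (e l) l α

theorem vv_mul' (H : Parts2) (hc : IsCub a b θ) (hS : GoodS Sf s) (hT : GoodT T A B)
    (hF : Fam X Sf s T A B a b) (hJ : J ⊆ Sf) {R S : Finset ℕ} (hSp : ∀ l ∈ S, Spl3 a b l)
    {e : ℕ → ZMod 2} {α β : L} (hα : VV hc J R S e α) (hβ : VV hc J R S e β) :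
    VV hc J R S e (α * β) where
  ne := mul_ne_zero hα.ne hβ.ne
  nm := by
    rw [map_mul]
    exact hα.nm.mul hβ.nm
  c0 := c0_mul H hc hS hT hF hJ hα.ne hβ.ne hα.c0 hβ.c0
  kk l hl hf t hR := by
    rw [vals_mul]
    exact kk_mul (hSp l hl).ne2 hR (vals_ne hc hR hα.ne) (vals_ne hc hR hβ.ne) (hα.kk l hl hf t hR)
      (hβ.kk l hl hf t hR)

/-- **Reciprocity.** -/
theorem recip (H : Parts2) (hI : S_INT) (hc : IsCub a b θ) (hS : GoodS Sf s) (hT : GoodT T A B)
    (hF : Fam X Sf s T A B a b) (hJ : J ⊆ Sf) {S : Finset ℕ} {l : ℕ}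
    (hSp : ∀ l ∈ S, Spl3 a b l) (hlJ : (l : ℤ) ∉ J)
    {e : ℕ → ZMod 2} {α : L} (hα : VV hc J (insert l S) S e α) (hl : Fact l.Prime) :
    IsoAt hc l α := by
  by_contra hn
  have hEXQ : S_EXQ := H.p.exq
  obtain ⟨d, g, hd, hg, hR, hiso⟩ := Pool.Agent.N655.PQ.diag L a b θ hc hF.pa α hα.ne hα.nm
  obtain ⟨-, heven⟩ := Pool.Agent.N655.PQ.hp d g hd hg hR
  have hnt2 : ∀ z : ℤ, ¬ (2 : ℤ) ∣ z ^ 3 + a * z + b := fam_nt hT hF hT.1
  have hset : {p : ℕ | ∃ _ : Fact p.Prime, ¬ Spl (d : ℚ_[p]) (g : ℚ_[p])} = {l} := by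
    ext p
    simp only [Set.mem_setOf_eq, Set.mem_singleton_iff]
    constructor
    · rintro ⟨hp, hsp⟩
      by_contra hpl
      have hn' : ¬ IsoAt hc p α := fun h => hsp ((hiso p).1 h)
      apply hn'
      have hpr : IsPr (p : ℤ) := isPr_nat hp.out
      by_cases hp2 : p = 2
      · subst hp2
        exact Pool.Agent.N803.PQ.iso2 L a b θ hc hnt2 α hα.ne hα.c0.2
      by_cases hpS : p ∈ S
      · obtain ⟨t, ht⟩ := exists_rts (p := p) (hSp p hpS).gd (hSp p hpS).three
        rw [iso_vals hc ht hα.ne]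
        exact iso_of_kk hp2 ht (vals_ne hc ht hα.ne) (hα.kk p hpS hp t ht)
      by_cases hpJ : (p : ℤ) ∈ J
      · have hpSf := hJ hpJ
        have hns := fam_ns hS hF hpSf
        obtain ⟨𝔓₁, 𝔮, o1, o2, v1, v2, -, hall⟩ := hEXQ L (𝓞 L) a b θ hc hF.sq p hpr.2
          (hF.rb _ hpSf) hns
        have hev1 : Ev 𝔓₁ α := hα.c0.1.eq _ hpJ 𝔓₁ o1 v1
        by_cases hevq : Ev 𝔮 α
        · refine Pool.Agent.N803.PQ.unim hI L (𝓞 L) a b θ hc hF.sq p hp2 α hα.ne ?_
          intro 𝔓 h𝔓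
          rcases hall 𝔓 h𝔓 with h | h
          · rw [h]
            exact hev1
          · rw [h]
            exact hevq
        · rw [Pool.Agent.N966.PQ.ram hI hEXQ L (𝓞 L) a b θ hc hF.sq p hp2 (hF.rb _ hpSf) hns 𝔓₁ 𝔮
            o1 o2 v1 v2 α hα.ne hev1 hevq]
          have := (hα.c0.1.u0 _ hpJ 𝔮 o2 v2).2 hevq
          rw [Int.cast_natCast] at this
          exact this
      · refine Pool.Agent.N803.PQ.unim hI L (𝓞 L) a b θ hc hF.sq p hp2 α hα.ne ?_
        intro 𝔓 h𝔓
        by_cases hpi : (p : ℤ) ∈ irr a b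
        · exact H.p.p3 L (𝓞 L) a b θ hc hF.sq (p : ℤ) hpr.2 hpi.2 α hα.ne hα.nm 𝔓 h𝔓
        · refine hα.c0.1.ev 𝔓 (fun P hP hPv => ?_) (fun Q hQ hQv => ?_)
          · rcases hP with hP | ⟨m, hm, rfl⟩
            · have := eq_of_ov hP.1 hpr hPv h𝔓
              rw [this] at hP
              exact hpi hP
            · have hm' : m.Prime := by
                rcases Finset.mem_insert.1 hm with h | h
                · rw [h]
                  exact hl.out
                · exact (hSp m h).pr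
              have := eq_of_ov (isPr_nat hm') hpr hPv h𝔓
              have h3 : m = p := by exact_mod_cast this
              rw [h3] at hm
              rcases Finset.mem_insert.1 hm with h | h
              · exact hpl h
              · exact hpS h
          · have := eq_of_ov (hS Q (hJ hQ)).1 hpr hQv h𝔓
            rw [this] at hQ
            exact hpJ hQ
    · rintro rfl
      exact ⟨hl, fun h => hn ((hiso p).2 h)⟩
  rw [hset, Set.ncard_singleton] at heven
  revert heven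
  decide

/-- The step. -/
theorem step (H : Parts2) (hI : S_INT) (hc : IsCub a b θ) (hS : GoodS Sf s) (hT : GoodT T A B)
    (hF : Fam X Sf s T A B a b) (hJ : J ⊆ Sf) {S : Finset ℕ} {l : ℕ} (hlS : l ∉ S)
    (hSp : ∀ m ∈ insert l S, Spl3 a b m) (hlJ : (l : ℤ) ∉ J) {e : ℕ → ZMod 2}
    (htriv : ∀ α : L, VV hc J S S e α → IsSquare α) :
    ∃ c : ZMod 2, ∀ e' : ℕ → ZMod 2, (∀ m ∈ S, e' m = e m) → e' l = c →
      ∀ α : L, VV hc J (insert l S) (insert l S) e' α → IsSquare α := by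
  have hl3 := hSp l (Finset.mem_insert_self _ _)
  have hSp' : ∀ m ∈ S, Spl3 a b m := fun m hm => hSp m (Finset.mem_insert_of_mem hm)
  haveI hl : Fact l.Prime := ⟨hl3.pr⟩
  obtain ⟨t, ht⟩ := exists_rts (p := l) hl3.gd hl3.three
  -- even at `l`
  have hev : ∀ α : L, VV hc J (insert l S) S e α → (∀ i, vv (vals hc ht α i) = 0) →
      IsSquare α := by
    intro α hα hv
    refine htriv α ⟨hα.ne, hα.nm, ⟨⟨fun 𝔓 hP hQ => ?_, hα.c0.1.u0, hα.c0.1.eq⟩, hα.c0.2⟩, hα.kk⟩
    by_cases hl𝔓 : Ov (l : ℤ) 𝔓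
    · exact ev_of_vals hI hc hF.sq ht hα.ne hv 𝔓 hl𝔓
    · refine hα.c0.1.ev 𝔓 ?_ hQ
      rintro P (hP' | ⟨m, hm, rfl⟩) hPv
      · exact hP P (Or.inl hP') hPv
      · rcases Finset.mem_insert.1 hm with h | h
        · rw [h] at hPv
          exact hl𝔓 hPv
        · exact hP _ (Or.inr ⟨m, h, rfl⟩) hPv
  obtain ⟨s₀, hs₀⟩ : ∃ s₀ : ZMod 2, s₀ = cc (-1 : ℚ_[l]) := ⟨_, rfl⟩
  obtain ⟨x₀, hx₀⟩ : ∃ s₀ : ZMod 2, s₀ = cc (t 0 - t 1) := ⟨_, rfl⟩
  obtain ⟨y₀, hy₀⟩ : ∃ s₀ : ZMod 2, s₀ = cc (t 0 - t 2) := ⟨_, rfl⟩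
  obtain ⟨z₀, hz₀⟩ : ∃ s₀ : ZMod 2, s₀ = cc (t 1 - t 2) := ⟨_, rfl⟩
  -- isotropy
  have hic : ∀ α : L, VV hc J (insert l S) S e α → IC s₀ x₀ y₀ z₀ (cl (vals hc ht α)) := by
    intro α hα
    rw [hs₀, hx₀, hy₀, hz₀]
    apply ic_of_iso hl3.ne2 ht (vals_ne hc ht hα.ne)
    rw [← iso_vals hc ht hα.ne]
    exact recip H hI hc hS hT hF hJ hSp' hlJ hα hl
  -- classes of both signs do not occur together
  have hdich : ∀ α β : L, VV hc J (insert l S) S e α → VV hc J (insert l S) S e β →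
      ∀ i j, cl (vals hc ht α) = TT s₀ 0 x₀ y₀ z₀ i → cl (vals hc ht β) = TT s₀ 1 x₀ y₀ z₀ j →
      False := by
    intro α β hα hβ i j h1 h3
    have hαβ := vv_mul' H hc hS hT hF hJ hSp' hα hβ
    have hcl : cl (vals hc ht (α * β)) = TT s₀ 0 x₀ y₀ z₀ i + TT s₀ 1 x₀ y₀ z₀ j := by
      rw [vals_mul, cl_mul hl3.ne2 (vals_ne hc ht hα.ne) (vals_ne hc ht hβ.ne), h1, h3]
    obtain ⟨k1, k2⟩ := tt_dich s₀ x₀ y₀ z₀ i j
    rcases k2 with k2 | k2
    · -- even, so a square, so the class is trivial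
      have hsq := hev _ hαβ fun k => by
        have h4 := k2 k
        rw [← hcl] at h4
        exact h4
      apply k1
      rw [← hcl]
      funext k
      obtain ⟨r, hr⟩ := hsq
      have h5 : IsSquare (vals hc ht (α * β) k) := by
        refine ⟨ph hc ht k r, ?_⟩
        show ph hc ht k (α * β) = _
        rw [hr, map_mul]
      have h6 := (sq_iff (vals_ne hc ht hαβ.ne k)).1 h5
      exact Prod.ext h6.1 h6.2
    · apply k2
      rw [← hcl]
      exact hic _ hαβ
  by_cases hex : ∃ β : L, VV hc J (insert l S) S e β ∧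
      ∃ j, cl (vals hc ht β) = TT s₀ 1 x₀ y₀ z₀ j
  · -- the sign `0` is free
    obtain ⟨β, hβ, j, hj⟩ := hex
    refine ⟨0, fun e' he' hel α hα => ?_⟩
    have hα' : VV hc J (insert l S) S e α := ⟨hα.ne, hα.nm, hα.c0, fun m hm => by
      rw [← he' m hm]
      exact hα.kk m (Finset.mem_insert_of_mem hm)⟩
    have h1 := hα.kk l (Finset.mem_insert_self _ _) hl t ht
    rw [hel, kk_tab hl3.ne2 ht, ← hs₀, ← hx₀, ← hy₀, ← hz₀] at h1
    rcases h1 with h1 | ⟨i, h1⟩
    · refine hev α hα' fun i => ?_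
      have := congrFun h1 i
      exact congrArg Prod.fst this
    · exact (hdich α β hα' hβ i j h1 hj).elim
  · refine ⟨1, fun e' he' hel α hα => ?_⟩
    have hα' : VV hc J (insert l S) S e α := ⟨hα.ne, hα.nm, hα.c0, fun m hm => by
      rw [← he' m hm]
      exact hα.kk m (Finset.mem_insert_of_mem hm)⟩
    have h1 := hα.kk l (Finset.mem_insert_self _ _) hl t ht
    rw [hel, kk_tab hl3.ne2 ht, ← hs₀, ← hx₀, ← hy₀, ← hz₀] at h1
    rcases h1 with h1 | ⟨i, h1⟩
    · refine hev α hα' fun i => ?_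
      have := congrFun h1 i
      exact congrArg Prod.fst this
    · exact (hex ⟨α, hα', i, h1⟩).elim

/-- The conditions only depend on the signs at the primes in `S`. -/
theorem vv_congr (hc : IsCub a b θ) {R S : Finset ℕ} {e e' : ℕ → ZMod 2}
    (h : ∀ m ∈ S, e' m = e m) {α : L} (hα : VV hc J R S e' α) : VV hc J R S e α :=
  ⟨hα.ne, hα.nm, hα.c0, fun m hm => by
    rw [← h m hm]
    exact hα.kk m hm⟩

/-- **The signs.** -/
theorem signs (H : Parts2) (hI : S_INT) (hc : IsCub a b θ) (hS : GoodS Sf s) (hT : GoodT T A B)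
    (hF : Fam X Sf s T A B a b) (hJ : J ⊆ Sf) (hsel : HSel a b J θ) (l : List ℕ) (hl : l.Nodup)
    (hSp : ∀ m ∈ l, Spl3 a b m) (hSJ : ∀ m ∈ l, (m : ℤ) ∉ J) :
    ∃ e : ℕ → ZMod 2, ∀ n : ℕ, ∀ α : L, VV hc J (l.take n).toFinset (l.take n).toFinset e α →
      IsSquare α := by
  induction l using List.reverseRecOn with
  | nil =>
    refine ⟨fun _ => 0, fun n α hα => ?_⟩
    refine c0_sq H hc hF hsel hα.ne hα.nm hα.c0 fun m hm => ?_
    simp at hm
  | append_singleton l m ih =>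
    obtain ⟨hl1, hml⟩ : l.Nodup ∧ m ∉ l := by
      rw [List.nodup_append] at hl
      refine ⟨hl.1, fun h => ?_⟩
      exact hl.2.2 m h m (List.mem_singleton_self m) rfl
    obtain ⟨e, he⟩ := ih hl1 (fun k hk => hSp k (List.mem_append_left _ hk))
      (fun k hk => hSJ k (List.mem_append_left _ hk))
    have hmS : m ∉ l.toFinset := by
      rw [List.mem_toFinset]
      exact hml
    have he1 := he l.length
    rw [List.take_length] at he1
    obtain ⟨c, hcc⟩ := step H hI hc hS hT hF hJ hmS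
      (fun k hk => by
        rcases Finset.mem_insert.1 hk with h | h
        · rw [h]
          exact hSp m (List.mem_append_right _ (List.mem_singleton_self m))
        · exact hSp k (List.mem_append_left _ (List.mem_toFinset.1 h)))
      (hSJ m (List.mem_append_right _ (List.mem_singleton_self m))) he1
    obtain ⟨e', he'⟩ : ∃ e' : ℕ → ZMod 2, e' = fun k => if k = m then c else e k := ⟨_, rfl⟩
    have hel : ∀ k ∈ l, e' k = e k := by
      intro k hk
      have : k ≠ m := by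
        rintro rfl
        exact hml hk
      rw [he']
      simp [this]
    refine ⟨e', fun n α hα => ?_⟩
    by_cases hn : n ≤ l.length
    · rw [List.take_append_of_le_length hn] at hα
      refine he n α (vv_congr hc (fun k hk => ?_) hα)
      exact hel k (List.mem_of_mem_take (List.mem_toFinset.1 hk))
    · have h1 : (l ++ [m]).take n = l ++ [m] := by
        apply List.take_of_length_le
        rw [List.length_append, List.length_singleton]
        omega
      rw [h1] at hα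
      have h3 : (l ++ [m]).toFinset = insert m l.toFinset := by
        ext k
        simp [or_comm]
      rw [h3] at hα
      refine hcc e' (fun k hk => hel k (List.mem_toFinset.1 hk)) ?_ α hα
      rw [he']
      simp

end core

end Pool.Agent.H30GS
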