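import Pool.Agent.H30GS.Loc
import Pool.Agent.H30GR.Base
import Pool.Agent.N803.PQ.Iso2
import Pool.Agent.N816.PQ.Emb

/-!
# The three embeddings of the cubic field at a prime with three zeros
-/

set_option autoImplicit false
set_option linter.all false

open Polynomial IsDedekindDomain NumberField Module
open scoped Classical
open Pool.Agent.N874.PM (PLoc)

namespace Pool.Agent.H30GS

open Pool.Agent.N922.PQ
open Pool.Agent.H30EV
open Pool.Agent.H30GR
open Pool.Agent.N874.PP (Ev Sq1 U0)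
open Pool.Agent.N667.PQ (exists_theta ov_iff crd_iff isInt)
open Pool.Agent.N803.PQ (pbas qp qp_min basis_pow)

/-! ### Zeros -/

theorem dsc_id (a b x : ℤ) : dsc a b = 4 * a ^ 2 * (3 * x ^ 2 + a) -
    3 * (2 * a * x - 3 * b) * (3 * (x ^ 3 + a * x + b) - x * (3 * x ^ 2 + a)) := by
  unfold dsc
  ring

/-- Hensel: the zeros modulo `p` lift. -/
theorem exists_rts {p : ℕ} [Fact p.Prime] {a b : ℤ} (hd : ¬ (p : ℤ) ∣ dsc a b)
    (h3 : 3 ≤ nz a b p) : ∃ t : Fin 3 → ℚ_[p], Rts a b t := by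
  have hp : p.Prime := Fact.out
  unfold nz at h3
  haveI : Finite {x : ZMod p // x ^ 3 + (a : ZMod p) * x + (b : ZMod p) = 0} := Subtype.finite
  obtain ⟨g⟩ : Nonempty (Fin 3 ↪ {x : ZMod p // x ^ 3 + (a : ZMod p) * x + (b : ZMod p) = 0}) := by
    apply Function.Embedding.nonempty_of_card_le
    rw [Fintype.card_fin, ← Nat.card_eq_fintype_card]
    exact h3
  have key : ∀ i : Fin 3, ∃ z : ℤ_[p], z ^ 3 + (a : ℤ_[p]) * z + (b : ℤ_[p]) = 0 ∧
      ∃ c : ℤ, ((c : ZMod p)) = (g i).1 ∧ ‖z - (c : ℤ_[p])‖ < 1 := by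
    intro i
    obtain ⟨c, hc⟩ := ZMod.intCast_surjective (g i).1
    obtain ⟨F, hF⟩ : ∃ F : Polynomial ℤ_[p], F = X ^ 3 + C (a : ℤ_[p]) * X + C (b : ℤ_[p]) :=
      ⟨_, rfl⟩
    have hF0 : aeval (c : ℤ_[p]) F = ((c ^ 3 + a * c + b : ℤ) : ℤ_[p]) := by
      rw [hF]; simp
    have hF1 : aeval (c : ℤ_[p]) (derivative F) = ((3 * c ^ 2 + a : ℤ) : ℤ_[p]) := by
      rw [hF]; simp; left; norm_num
    have hdiv : (p : ℤ) ∣ c ^ 3 + a * c + b := by
      rw [← ZMod.intCast_zmod_eq_zero_iff_dvd]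
      push_cast
      rw [hc]
      exact (g i).2
    have hn1 : ‖((3 * c ^ 2 + a : ℤ) : ℤ_[p])‖ = 1 := by
      refine le_antisymm (PadicInt.norm_le_one _) (not_lt.1 fun h => ?_)
      rw [PadicInt.norm_int_lt_one_iff_dvd] at h
      apply hd
      rw [dsc_id a b c]
      exact dvd_sub (h.mul_left _) ((dvd_sub (hdiv.mul_left _) (h.mul_left _)).mul_left _)
    have hn0 : ‖((c ^ 3 + a * c + b : ℤ) : ℤ_[p])‖ < 1 :=
      (PadicInt.norm_int_lt_one_iff_dvd _).2 hdiv
    obtain ⟨z, hz, hz1, -⟩ := hensels_lemma (p := p) (F := F) (a := (c : ℤ_[p])) (by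
      rw [hF0, hF1, hn1, one_pow]; exact hn0)
    rw [hF1, hn1] at hz1
    refine ⟨z, ?_, c, hc, hz1⟩
    rw [hF] at hz
    simpa using hz
  choose z hz c hc hzc using key
  refine ⟨fun i => (z i : ℚ_[p]), fun i => (z i).2, fun i j hij => ?_, fun i => ?_⟩
  · have h1 : ‖z i - z j‖ = 1 := by
      refine le_antisymm (PadicInt.norm_le_one _) (not_lt.1 fun h => ?_)
      have h4 : ‖((c i - c j : ℤ) : ℤ_[p])‖ < 1 := by
        have e : ((c i - c j : ℤ) : ℤ_[p]) = (z i - z j) + (z j - c j) - (z i - c i) := by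
          push_cast
          ring
        rw [e, sub_eq_add_neg]
        refine (PadicInt.nonarchimedean _ _).trans_lt (max_lt ?_ ?_)
        · exact (PadicInt.nonarchimedean _ _).trans_lt (max_lt h (hzc j))
        · rw [norm_neg]
          exact hzc i
      rw [PadicInt.norm_int_lt_one_iff_dvd, ← ZMod.intCast_zmod_eq_zero_iff_dvd] at h4
      push_cast at h4
      rw [hc, hc, sub_eq_zero] at h4
      exact hij (g.injective (Subtype.ext h4))
    rw [PadicInt.norm_def] at h1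
    push_cast at h1
    exact h1
  · have := congrArg (fun w : ℤ_[p] => (w : ℚ_[p])) (hz i)
    push_cast at this
    exact this

/-! ### Embeddings -/

section emb

variable {L : Type} [Field L] [NumberField L] {a b : ℤ} {θ : L} {F : Type} [Field F] [Algebra ℚ F]

/-- The embedding which maps `θ` to a zero. -/
noncomputable def phi (h : IsCub a b θ) (y : F) (hy : y ^ 3 + (a : F) * y + (b : F) = 0) :
    L →ₐ[ℚ] F :=
  (pbas h).lift y (by
    change aeval y (minpoly ℚ θ) = 0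
    rw [qp_min h]
    unfold qp
    simp only [map_add, map_mul, map_pow, aeval_X, aeval_C, map_intCast]
    exact hy)

theorem phi_gen (h : IsCub a b θ) (y : F) (hy : y ^ 3 + (a : F) * y + (b : F) = 0) :
    phi h y hy θ = y := (pbas h).lift_gen _ _

theorem phi_aeval (h : IsCub a b θ) (y : F) (hy : y ^ 3 + (a : F) * y + (b : F) = 0) (τ : ℤ)
    (g : ℚ[X]) : phi h y hy (aeval ((τ : L) * θ) g) = aeval ((τ : F) * y) g := by
  rw [← aeval_algHom_apply, map_mul, phi_gen, map_intCast]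

end emb

section padic

variable {p : ℕ} [Fact p.Prime] {L : Type} [Field L] [NumberField L] {a b : ℤ} {θ : L}
  {t : Fin 3 → ℚ_[p]}

/-- The embeddings. -/
noncomputable def ph (h : IsCub a b θ) (hR : Rts a b t) (i : Fin 3) : L →ₐ[ℚ] ℚ_[p] :=
  phi h (t i) (hR.root i)

/-- The values of an element. -/
noncomputable def vals (h : IsCub a b θ) (hR : Rts a b t) (α : L) : Fin 3 → ℚ_[p] :=
  fun i => ph h hR i α

theorem ph_gen (h : IsCub a b θ) (hR : Rts a b t) (i : Fin 3) : ph h hR i θ = t i :=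
  phi_gen h _ _

theorem vals_ne (h : IsCub a b θ) (hR : Rts a b t) {α : L} (hα : α ≠ 0) (i : Fin 3) :
    vals h hR α i ≠ 0 := fun h0 => hα ((map_eq_zero (ph h hR i)).1 h0)

theorem vals_mul (h : IsCub a b θ) (hR : Rts a b t) (α β : L) :
    vals h hR (α * β) = fun i => vals h hR α i * vals h hR β i := by
  funext i
  exact map_mul _ _ _

/-- The norm. -/
theorem norm_vals (h : IsCub a b θ) (hR : Rts a b t) (α : L) :
    ((Algebra.norm ℚ α : ℚ) : ℚ_[p]) = vals h hR α 0 * vals h hR α 1 * vals h hR α 2 := by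
  obtain ⟨j, hj⟩ : ∃ j : ℚ_[p] →+* AlgebraicClosure ℚ_[p], j = algebraMap _ _ := ⟨_, rfl⟩
  have hinj : Function.Injective j := j.injective
  let g : Fin 3 → (L →ₐ[ℚ] AlgebraicClosure ℚ_[p]) := fun i =>
    { (j.comp (ph h hR i).toRingHom) with
      commutes' := fun r => by
        show j (ph h hR i (algebraMap ℚ L r)) = _
        rw [(ph h hR i).commutes]
        simp }
  have hgv : ∀ i x, g i x = j (ph h hR i x) := fun i x => rfl
  have hg : Function.Injective g := by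
    intro i k hik
    by_contra hne
    have h1 : g i θ = g k θ := by rw [hik]
    rw [hgv, hgv, ph_gen, ph_gen] at h1
    exact hR.ne hne (sub_eq_zero.2 (hinj h1))
  have hcard : Fintype.card (Fin 3) = Fintype.card (L →ₐ[ℚ] AlgebraicClosure ℚ_[p]) := by
    rw [Fintype.card_fin, AlgHom.card, h.rank]
  have hbij : Function.Bijective g := (Fintype.bijective_iff_injective_and_card g).2 ⟨hg, hcard⟩
  have h1 := Algebra.norm_eq_prod_embeddings ℚ (AlgebraicClosure ℚ_[p]) α
  rw [← Function.Bijective.prod_comp hbij (fun σ => σ α), Fin.prod_univ_three, hgv, hgv, hgv,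
    ← map_mul, ← map_mul] at h1
  apply hinj
  rw [← Rat.cast_id (Algebra.norm ℚ α)] at h1
  have h2 : j ((Algebra.norm ℚ α : ℚ) : ℚ_[p]) = algebraMap ℚ (AlgebraicClosure ℚ_[p])
      (Algebra.norm ℚ α) := by
    rw [map_ratCast, eq_ratCast]
  rw [h2]
  exact h1

/-- The product of the classes. -/
theorem cl_sum (h2 : p ≠ 2) (h : IsCub a b θ) (hR : Rts a b t) {α : L} (hα : α ≠ 0)
    (hN : IsSquare (Algebra.norm ℚ α)) :
    cl (vals h hR α) 0 + cl (vals h hR α) 1 + cl (vals h hR α) 2 = 0 := by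
  have n := vals_ne h hR hα
  have h1 : IsSquare (vals h hR α 0 * vals h hR α 1 * vals h hR α 2) := by
    rw [← norm_vals h hR α]
    obtain ⟨s, hs⟩ := hN
    exact ⟨(s : ℚ_[p]), by rw [hs]; push_cast; rfl⟩
  have h3 := (sq_iff (mul_ne_zero (mul_ne_zero (n 0) (n 1)) (n 2))).1 h1
  rw [vv_mul (mul_ne_zero (n 0) (n 1)) (n 2), vv_mul (n 0) (n 1),
    cc_mul h2 (mul_ne_zero (n 0) (n 1)) (n 2), cc_mul h2 (n 0) (n 1)] at h3
  exact Prod.ext h3.1 h3.2

/-- The coefficient. -/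
theorem co_vals (h : IsCub a b θ) (hR : Rts a b t) (β : L) :
    ((h.co 2 β : ℚ) : ℚ_[p]) = ph h hR 0 β / ((t 0 - t 1) * (t 0 - t 2)) +
      ph h hR 1 β / ((t 1 - t 0) * (t 1 - t 2)) + ph h hR 2 β / ((t 2 - t 0) * (t 2 - t 1)) := by
  have h01 := hR.ne (i := 0) (j := 1) (by decide)
  have h02 := hR.ne (i := 0) (j := 2) (by decide)
  have h12 := hR.ne (i := 1) (j := 2) (by decide)
  have h10 := hR.ne (i := 1) (j := 0) (by decide)
  have h20 := hR.ne (i := 2) (j := 0) (by decide)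
  have h21 := hR.ne (i := 2) (j := 1) (by decide)
  have e := h.basis.sum_repr β
  have hv : ∀ i, ph h hR i β = ((h.basis.repr β 0 : ℚ) : ℚ_[p]) +
      ((h.basis.repr β 1 : ℚ) : ℚ_[p]) * t i + ((h.basis.repr β 2 : ℚ) : ℚ_[p]) * t i ^ 2 := by
    intro i
    conv_lhs => rw [← e]
    rw [map_sum, Fin.sum_univ_three]
    simp only [map_smul, basis_pow, map_pow, ph_gen, Algebra.smul_def]
    simp
    rw [ph_gen]
  have h3 : h.co 2 β = h.basis.repr β 2 := rfl
  rw [hv, hv, hv, h3]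
  field_simp
  ring

/-- The form in terms of the values. -/
theorem iso_vals (h : IsCub a b θ) (hR : Rts a b t) {α : L} (hα : α ≠ 0) :
    IsoAt h p α ↔ Iso t (vals h hR α) := by
  have h01 := hR.ne (i := 0) (j := 1) (by decide)
  have h02 := hR.ne (i := 0) (j := 2) (by decide)
  have h12 := hR.ne (i := 1) (j := 2) (by decide)
  have h10 := hR.ne (i := 1) (j := 0) (by decide)
  have h20 := hR.ne (i := 2) (j := 0) (by decide)
  have h21 := hR.ne (i := 2) (j := 1) (by decide)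
  have n := vals_ne h hR hα
  have key : ∀ x : Fin 3 → ℚ_[p], ∑ i : Fin 3, ∑ j : Fin 3,
      ((h.co 2 (θ ^ (i : ℕ) * θ ^ (j : ℕ) / α) : ℚ) : ℚ_[p]) * x i * x j =
      (x 0 + x 1 * t 0 + x 2 * t 0 ^ 2) ^ 2 / (vals h hR α 0 * ((t 0 - t 1) * (t 0 - t 2))) +
      (x 0 + x 1 * t 1 + x 2 * t 1 ^ 2) ^ 2 / (vals h hR α 1 * ((t 1 - t 0) * (t 1 - t 2))) +
      (x 0 + x 1 * t 2 + x 2 * t 2 ^ 2) ^ 2 / (vals h hR α 2 * ((t 2 - t 0) * (t 2 - t 1))) := by
    intro x
    have n0 := n 0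
    have n1 := n 1
    have n2 := n 2
    simp only [co_vals h hR, map_div₀, map_mul, map_pow, ph_gen]
    simp only [Fin.sum_univ_three]
    have e0 : ph h hR 0 α = vals h hR α 0 := rfl
    have e1 : ph h hR 1 α = vals h hR α 1 := rfl
    have e2 : ph h hR 2 α = vals h hR α 2 := rfl
    rw [e0, e1, e2]
    simp only [Fin.val_zero, Fin.val_one, Fin.val_two, pow_zero, pow_one, Fin.coe_ofNat_eq_mod]
    field_simp
    ring
  constructor
  · rintro ⟨x, hx, h3⟩
    rw [key] at h3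
    refine ⟨![x 0 + x 1 * t 0 + x 2 * t 0 ^ 2, x 0 + x 1 * t 1 + x 2 * t 1 ^ 2,
      x 0 + x 1 * t 2 + x 2 * t 2 ^ 2], fun h4 => ?_, ?_⟩
    · have k0 : x 0 + x 1 * t 0 + x 2 * t 0 ^ 2 = 0 := by simpa using congrFun h4 0
      have k1 : x 0 + x 1 * t 1 + x 2 * t 1 ^ 2 = 0 := by simpa using congrFun h4 1
      have k2 : x 0 + x 1 * t 2 + x 2 * t 2 ^ 2 = 0 := by simpa using congrFun h4 2
      have l1 : x 1 + x 2 * (t 0 + t 1) = 0 := by
        apply mul_left_cancel₀ h01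
        linear_combination k0 - k1
      have l2 : x 1 + x 2 * (t 0 + t 2) = 0 := by
        apply mul_left_cancel₀ h02
        linear_combination k0 - k2
      have m2 : x 2 = 0 := by
        apply mul_left_cancel₀ h12
        linear_combination l1 - l2
      have m1 : x 1 = 0 := by
        rw [m2] at l1
        linear_combination l1
      have m0 : x 0 = 0 := by
        rw [m1, m2] at k0
        linear_combination k0
      apply hx
      funext i
      fin_cases i
      · exact m0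
      · exact m1
      · exact m2
    · simp only [Matrix.cons_val_zero, Matrix.cons_val_one, Matrix.cons_val]
      exact h3
  · rintro ⟨u, hu, h3⟩
    let x : Fin 3 → ℚ_[p] := ![
      u 0 * (t 1 * t 2) / ((t 0 - t 1) * (t 0 - t 2)) + u 1 * (t 0 * t 2) / ((t 1 - t 0) * (t 1 - t 2)) +
        u 2 * (t 0 * t 1) / ((t 2 - t 0) * (t 2 - t 1)),
      -(u 0 * (t 1 + t 2) / ((t 0 - t 1) * (t 0 - t 2)) + u 1 * (t 0 + t 2) / ((t 1 - t 0) * (t 1 - t 2)) +
        u 2 * (t 0 + t 1) / ((t 2 - t 0) * (t 2 - t 1))),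
      u 0 / ((t 0 - t 1) * (t 0 - t 2)) + u 1 / ((t 1 - t 0) * (t 1 - t 2)) +
        u 2 / ((t 2 - t 0) * (t 2 - t 1))]
    have x0 : x 0 = u 0 * (t 1 * t 2) / ((t 0 - t 1) * (t 0 - t 2)) +
        u 1 * (t 0 * t 2) / ((t 1 - t 0) * (t 1 - t 2)) +
        u 2 * (t 0 * t 1) / ((t 2 - t 0) * (t 2 - t 1)) := rfl
    have x1 : x 1 = -(u 0 * (t 1 + t 2) / ((t 0 - t 1) * (t 0 - t 2)) +
        u 1 * (t 0 + t 2) / ((t 1 - t 0) * (t 1 - t 2)) +
        u 2 * (t 0 + t 1) / ((t 2 - t 0) * (t 2 - t 1))) := rfl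
    have x2 : x 2 = u 0 / ((t 0 - t 1) * (t 0 - t 2)) + u 1 / ((t 1 - t 0) * (t 1 - t 2)) +
        u 2 / ((t 2 - t 0) * (t 2 - t 1)) := rfl
    have y0 : x 0 + x 1 * t 0 + x 2 * t 0 ^ 2 = u 0 := by
      rw [x0, x1, x2]
      field_simp
      ring
    have y1 : x 0 + x 1 * t 1 + x 2 * t 1 ^ 2 = u 1 := by
      rw [x0, x1, x2]
      field_simp
      ring
    have y2 : x 0 + x 1 * t 2 + x 2 * t 2 ^ 2 = u 2 := by
      rw [x0, x1, x2]
      field_simp
      ring
    refine ⟨x, fun h4 => hu ?_, ?_⟩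
    · have z0 : x 0 = 0 := congrFun h4 0
      have z1 : x 1 = 0 := congrFun h4 1
      have z2 : x 2 = 0 := congrFun h4 2
      funext i
      fin_cases i
      · show u 0 = 0
        rw [← y0, z0, z1, z2]
        ring
      · show u 1 = 0
        rw [← y1, z0, z1, z2]
        ring
      · show u 2 = 0
        rw [← y2, z0, z1, z2]
        ring
    · rw [key, y0, y1, y2]
      exact h3

end padic

end Pool.Agent.H30GS
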