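import Pool.Agent.H30GS.Emb

/-!
# The primes over a prime with three zeros; the local condition over `ℚ_p`
-/

set_option autoImplicit false
set_option linter.all false

open Polynomial IsDedekindDomain NumberField Module
open scoped Classical
open Pool.Agent.N874.PM (PLoc)

namespace Pool.Agent.H30GS

open Pool.Agent.N922.PQ
open Pool.Agent.H30EV
open Pool.Agent.H30GR
open Pool.Agent.N874.PP (Ev Sq1 U0)
open Pool.Agent.N667.PQ (exists_theta ov_iff crd_iff isInt)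
open Pool.Agent.N816.PQ.Emb (pl pI mem_pI le_of lt_of p_mem)

section ev

variable {p : ℕ} [Fact p.Prime] {L : Type} [Field L] [NumberField L] {a b : ℤ} {θ : L}
  {t : Fin 3 → ℚ_[p]}

theorem exists_near {z : ℚ_[p]} (hz : ‖z‖ ≤ 1) : ∃ c : ℤ, ‖z - (c : ℚ_[p])‖ < 1 := by
  obtain ⟨w, hw⟩ : ∃ w : ℤ_[p], (w : ℚ_[p]) = z := ⟨⟨z, hz⟩, rfl⟩
  obtain ⟨m, -, hm⟩ := PadicInt.exists_mem_range w
  refine ⟨m, ?_⟩
  have h4 : ‖w - (m : ℤ_[p])‖ < 1 := by
    rw [PadicInt.maximalIdeal_eq_span_p, Ideal.mem_span_singleton] at hm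
    exact PadicInt.norm_lt_one_iff_dvd _ |>.2 hm
  rw [PadicInt.norm_def] at h4
  push_cast at h4
  rw [Int.cast_natCast, ← hw]
  exact h4

/-- A prime over `p` is that of an embedding. -/
theorem exists_pl (hI : S_INT) (h : IsCub a b θ) (hsq : Squarefree (dsc a b)) (hR : Rts a b t)
    (𝔓 : HeightOneSpectrum (𝓞 L)) (h𝔓 : Ov (p : ℤ) 𝔓) :
    ∃ i, 𝔓 = pl (𝓞 L) (ph h hR i).toRingHom := by
  have hp : p.Prime := Fact.out
  have hpZ : Prime (p : ℤ) := Nat.prime_iff_prime_int.1 hp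
  choose c hc using fun i => exists_near (hR.int i)
  obtain ⟨θ₀, hθ₀, hroot⟩ := exists_theta (O := 𝓞 L) h
  have hcn : ∀ i, ‖(c i : ℚ_[p])‖ ≤ 1 := fun i => Padic.norm_int_le_one _
  have hmul : ∀ x y : ℚ_[p], ‖x‖ < 1 → ‖y‖ ≤ 1 → ‖x * y‖ < 1 := by
    intro x y hx hy
    rw [norm_mul]
    exact mul_lt_one_of_nonneg_of_lt_one_left (norm_nonneg _) hx hy
  have hadd : ∀ x y : ℚ_[p], ‖x‖ < 1 → ‖y‖ < 1 → ‖x + y‖ < 1 := fun x y hx hy =>
    (Padic.nonarchimedean _ _).trans_lt (max_lt hx hy)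
  have hneg : ∀ x : ℚ_[p], ‖x‖ < 1 → ‖-x‖ < 1 := fun x hx => by rwa [norm_neg]
  obtain ⟨δ, hδ⟩ : ∃ δ : Fin 3 → ℚ_[p], ∀ i, δ i = t i - c i := ⟨fun i => t i - c i, fun _ => rfl⟩
  have hδn : ∀ i, ‖δ i‖ < 1 := fun i => by rw [hδ]; exact hc i
  have ht : ∀ i, t i = c i + δ i := fun i => by rw [hδ]; ring
  -- the elementary symmetric functions
  have d1 : (p : ℤ) ∣ c 0 + c 1 + c 2 := by
    rw [← Padic.norm_intCast_lt_one_iff]
    have e : ((c 0 + c 1 + c 2 : ℤ) : ℚ_[p]) = -(δ 0 + δ 1 + δ 2) := by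
      have := hR.sum
      rw [ht, ht, ht] at this
      push_cast
      linear_combination this
    rw [e]
    exact hneg _ (hadd _ _ (hadd _ _ (hδn 0) (hδn 1)) (hδn 2))
  have htn : ∀ i, ‖t i‖ ≤ 1 := hR.int
  have d2 : (p : ℤ) ∣ c 0 * c 1 + c 0 * c 2 + c 1 * c 2 - a := by
    rw [← Padic.norm_intCast_lt_one_iff]
    have e : ((c 0 * c 1 + c 0 * c 2 + c 1 * c 2 - a : ℤ) : ℚ_[p]) =
        -(δ 0 * (t 1)) + -(δ 1 * (c 0)) + (-(δ 0 * (t 2)) + -(δ 2 * (c 0))) +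
          (-(δ 1 * (t 2)) + -(δ 2 * (c 1))) := by
      push_cast
      rw [hR.ea, ht 0, ht 1, ht 2]
      ring
    rw [e]
    exact hadd _ _ (hadd _ _ (hadd _ _ (hneg _ (hmul _ _ (hδn 0) (htn 1)))
      (hneg _ (hmul _ _ (hδn 1) (hcn 0)))) (hadd _ _ (hneg _ (hmul _ _ (hδn 0) (htn 2)))
      (hneg _ (hmul _ _ (hδn 2) (hcn 0))))) (hadd _ _ (hneg _ (hmul _ _ (hδn 1) (htn 2)))
      (hneg _ (hmul _ _ (hδn 2) (hcn 1))))
  have hmul1 : ∀ x y : ℚ_[p], ‖x‖ ≤ 1 → ‖y‖ ≤ 1 → ‖x * y‖ ≤ 1 := by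
    intro x y hx hy
    rw [norm_mul]
    exact mul_le_one₀ hx (norm_nonneg _) hy
  have d3 : (p : ℤ) ∣ c 0 * c 1 * c 2 + b := by
    rw [← Padic.norm_intCast_lt_one_iff]
    have e : ((c 0 * c 1 * c 2 + b : ℤ) : ℚ_[p]) =
        -(δ 0 * (t 1 * t 2)) + -(δ 1 * (c 0 * t 2)) + -(δ 2 * (c 0 * c 1)) := by
      push_cast
      rw [hR.eb, ht 0, ht 1, ht 2]
      ring
    rw [e]
    exact hadd _ _ (hadd _ _ (hneg _ (hmul _ _ (hδn 0) (hmul1 _ _ (htn 1) (htn 2))))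
      (hneg _ (hmul _ _ (hδn 1) (hmul1 _ _ (hcn 0) (htn 2))))) (hneg _ (hmul _ _ (hδn 2)
      (hmul1 _ _ (hcn 0) (hcn 1))))
  have hpm : algebraMap ℤ (𝓞 L) (p : ℤ) ∈ 𝔓.asIdeal := h𝔓
  have hmem : (θ₀ - algebraMap ℤ (𝓞 L) (c 0)) * (θ₀ - algebraMap ℤ (𝓞 L) (c 1)) *
      (θ₀ - algebraMap ℤ (𝓞 L) (c 2)) ∈ 𝔓.asIdeal := by
    obtain ⟨k1, hk1⟩ := d1
    obtain ⟨k2, hk2⟩ := d2
    obtain ⟨k3, hk3⟩ := d3
    have f1 := congrArg (algebraMap ℤ (𝓞 L)) hk1
    have f2 := congrArg (algebraMap ℤ (𝓞 L)) hk2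
    have f3 := congrArg (algebraMap ℤ (𝓞 L)) hk3
    simp only [map_add, map_sub, map_mul] at f1 f2 f3
    have e : (θ₀ - algebraMap ℤ (𝓞 L) (c 0)) * (θ₀ - algebraMap ℤ (𝓞 L) (c 1)) *
      (θ₀ - algebraMap ℤ (𝓞 L) (c 2)) = (-(algebraMap ℤ (𝓞 L) k1) * θ₀ ^ 2 +
        algebraMap ℤ (𝓞 L) k2 * θ₀ - algebraMap ℤ (𝓞 L) k3) * algebraMap ℤ (𝓞 L) (p : ℤ) := by
      linear_combination hroot - θ₀ ^ 2 * f1 + θ₀ * f2 - f3
    rw [e]
    exact 𝔓.asIdeal.mul_mem_left _ hpm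
  obtain ⟨i, hi⟩ : ∃ i, θ₀ - algebraMap ℤ (𝓞 L) (c i) ∈ 𝔓.asIdeal := by
    rcases 𝔓.isPrime.mem_or_mem hmem with h1 | h1
    · rcases 𝔓.isPrime.mem_or_mem h1 with h3 | h3
      · exact ⟨0, h3⟩
      · exact ⟨1, h3⟩
    · exact ⟨2, h1⟩
  refine ⟨i, ?_⟩
  have hle : 𝔓.asIdeal ≤ pI (𝓞 L) (ph h hR i).toRingHom := by
    intro x hx
    rw [mem_pI]
    obtain ⟨v, hv⟩ := (hI L a b θ h hsq _).mp (isInt (L := L) x)
    have e1 : x = algebraMap ℤ (𝓞 L) (v 0 + v 1 * c i + v 2 * c i ^ 2) +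
        (θ₀ - algebraMap ℤ (𝓞 L) (c i)) * (algebraMap ℤ (𝓞 L) (v 1) +
          algebraMap ℤ (𝓞 L) (v 2) * (θ₀ + algebraMap ℤ (𝓞 L) (c i))) := by
      apply IsFractionRing.injective (𝓞 L) L
      rw [crd_iff] at hv
      simp only [map_add, map_mul, map_pow, map_sub, hθ₀, hv,
        ← IsScalarTower.algebraMap_apply ℤ (𝓞 L) L]
      ring
    have hm : algebraMap ℤ (𝓞 L) (v 0 + v 1 * c i + v 2 * c i ^ 2) ∈ 𝔓.asIdeal := by
      have h3 := sub_mem hx (𝔓.asIdeal.mul_mem_right (algebraMap ℤ (𝓞 L) (v 1) +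
          algebraMap ℤ (𝓞 L) (v 2) * (θ₀ + algebraMap ℤ (𝓞 L) (c i))) hi)
      have e3 : x - (θ₀ - algebraMap ℤ (𝓞 L) (c i)) * (algebraMap ℤ (𝓞 L) (v 1) +
          algebraMap ℤ (𝓞 L) (v 2) * (θ₀ + algebraMap ℤ (𝓞 L) (c i))) =
          algebraMap ℤ (𝓞 L) (v 0 + v 1 * c i + v 2 * c i ^ 2) := by
        linear_combination e1
      rw [e3] at h3
      exact h3
    rw [ov_iff hpZ h𝔓, ← Padic.norm_intCast_lt_one_iff (p := p)] at hm
    have e4 : (ph h hR i).toRingHom (algebraMap (𝓞 L) L x) =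
        ((v 0 + v 1 * c i + v 2 * c i ^ 2 : ℤ) : ℚ_[p]) +
          δ i * ((v 1 : ℚ_[p]) + (v 2 : ℚ_[p]) * (t i + c i)) := by
      show ph h hR i (algebraMap (𝓞 L) L x) = _
      have hv' : algebraMap (𝓞 L) L x = (v 0 : L) + (v 1 : L) * θ + (v 2 : L) * θ ^ 2 := hv
      rw [hv']
      simp only [map_add, map_mul, map_pow, map_intCast, ph_gen]
      push_cast
      rw [hδ i]
      ring
    rw [e4]
    refine hadd _ _ hm (hmul _ _ (hδn i) ?_)
    refine (Padic.nonarchimedean _ _).trans (max_le (Padic.norm_int_le_one _)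
      (hmul1 _ _ (Padic.norm_int_le_one _) ?_))
    exact (Padic.nonarchimedean _ _).trans (max_le (htn i) (hcn i))
  apply HeightOneSpectrum.ext
  exact 𝔓.isMaximal.eq_of_le (pl (𝓞 L) (ph h hR i).toRingHom).isPrime.ne_top hle

/-- The valuation of the place of an embedding. -/
theorem val_pl {M R : Type} [Field M] [NumberField M] [CommRing R] [IsDedekindDomain R]
    [Algebra R M] [IsFractionRing R M] [IsIntegralClosure R ℤ M] (σ : M →+* ℚ_[p]) {x : M}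
    (hx : x ≠ 0) : (pl R σ).valuation M x = WithZero.exp (-(σ x).valuation) := by
  have hp : p.Prime := Fact.out
  have hp1 : (1 : ℝ) < p := by exact_mod_cast hp.one_lt
  have hone : ∀ y : M, (pl R σ).valuation M y = 1 → ‖σ y‖ = 1 := by
    intro y hy
    refine le_antisymm (le_of (R := R) σ y hy.le) ?_
    have h1 : (pl R σ).valuation M y⁻¹ ≤ 1 := by rw [map_inv₀, hy, inv_one]
    have h2 := le_of (R := R) σ y⁻¹ h1
    rw [map_inv₀, norm_inv] at h2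
    have h3 : ‖σ y‖ ≠ 0 := by
      rw [norm_ne_zero_iff]
      intro h4
      have h5 : y = 0 := (map_eq_zero σ).1 h4
      rw [h5, map_zero] at hy
      exact zero_ne_one hy
    exact (inv_le_one₀ (lt_of_le_of_ne (norm_nonneg _) h3.symm)).1 h2
  have hval0 : ∀ y : M, y ≠ 0 → (pl R σ).valuation M y = 1 → (σ y).valuation = 0 := by
    intro y hy0 hy
    have h1 := hone y hy
    have h2 : σ y ≠ 0 := (map_ne_zero σ).2 hy0
    rw [Padic.norm_eq_zpow_neg_valuation h2] at h1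
    have h3 : -(σ y).valuation = 0 := by
      apply zpow_right_injective₀ (by positivity) hp1.ne'
      simpa using h1
    omega
  obtain ⟨π, hπ⟩ := (pl R σ).valuation_exists_uniformizer M
  have hπ0 : π ≠ 0 := by
    rintro rfl
    rw [map_zero] at hπ
    exact WithZero.exp_ne_zero hπ.symm
  have hpM : ((p : ℕ) : M) ≠ 0 := by exact_mod_cast hp.ne_zero
  -- the valuation of `x` is a multiple of that of `π`
  have key : ∀ y : M, y ≠ 0 → (σ y).valuation =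
      -WithZero.log ((pl R σ).valuation M y) * (σ π).valuation := by
    intro y hy
    have hy' : (pl R σ).valuation M y ≠ 0 := (Valuation.ne_zero_iff _).2 hy
    obtain ⟨m, hm⟩ : ∃ m : ℤ, m = WithZero.log ((pl R σ).valuation M y) := ⟨_, rfl⟩
    have h1 : (pl R σ).valuation M (y * π ^ m) = 1 := by
      rw [map_mul, map_zpow₀, hπ, ← WithZero.exp_log hy', ← hm, ← WithZero.exp_zsmul,
        ← WithZero.exp_add, ← WithZero.exp_zero]
      congr 1
      simp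
    have h2 := hval0 _ (mul_ne_zero hy (zpow_ne_zero _ hπ0)) h1
    rw [map_mul, map_zpow₀, Padic.valuation_mul ((map_ne_zero σ).2 hy)
      (zpow_ne_zero _ ((map_ne_zero σ).2 hπ0)), Padic.valuation_zpow] at h2
    rw [← hm]
    linear_combination h2
  have h1 := key p hpM
  rw [map_natCast, Padic.valuation_p] at h1
  have hlt : (pl R σ).valuation M ((p : ℕ) : M) < 1 := by
    have e : ((p : ℕ) : M) = algebraMap R M ((p : ℕ) : R) := by rw [map_natCast]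
    rw [e, HeightOneSpectrum.valuation_lt_one_iff_mem]
    exact p_mem σ
  have hp' : (pl R σ).valuation M ((p : ℕ) : M) ≠ 0 := (Valuation.ne_zero_iff _).2 hpM
  have hlog : WithZero.log ((pl R σ).valuation M ((p : ℕ) : M)) < 0 := by
    rw [← WithZero.exp_log hp', ← WithZero.exp_zero, WithZero.exp_lt_exp] at hlt
    exact hlt
  have hπv : (σ π).valuation = 1 := by
    have h3 : (σ π).valuation ∣ 1 := ⟨_, by rw [mul_comm]; exact h1⟩
    have h4 : 0 < (σ π).valuation := by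
      by_contra h5
      rw [not_lt] at h5
      nlinarith
    rcases Int.isUnit_iff.1 (isUnit_of_dvd_one h3) with h5 | h5
    · exact h5
    · omega
  have h2 := key x hx
  rw [hπv, mul_one] at h2
  have hx' : (pl R σ).valuation M x ≠ 0 := (Valuation.ne_zero_iff _).2 hx
  rw [h2, neg_neg, WithZero.exp_log hx']

/-- Even valuations at the primes over `p`. -/
theorem ev_of_vals (hI : S_INT) (h : IsCub a b θ) (hsq : Squarefree (dsc a b)) (hR : Rts a b t)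
    {α : L} (hα : α ≠ 0) (hv : ∀ i, vv (vals h hR α i) = 0) (𝔓 : HeightOneSpectrum (𝓞 L))
    (h𝔓 : Ov (p : ℤ) 𝔓) : Ev 𝔓 α := by
  obtain ⟨i, rfl⟩ := exists_pl hI h hsq hR 𝔓 h𝔓
  have hp : p.Prime := Fact.out
  have hpL : ((p : ℕ) : L) ≠ 0 := by exact_mod_cast hp.ne_zero
  have h1 := hv i
  unfold vv at h1
  rw [ZMod.intCast_zmod_eq_zero_iff_dvd] at h1
  obtain ⟨k, hk⟩ := h1
  refine ⟨(p : L) ^ k, ?_⟩
  have e : (ph h hR i).toRingHom α = vals h hR α i := rfl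
  rw [val_pl _ hα, e, hk, map_zpow₀, val_pl _ hpL]
  have e2 : (ph h hR i).toRingHom ((p : ℕ) : L) = (p : ℚ_[p]) := map_natCast _ _
  rw [e2, Padic.valuation_p, ← WithZero.exp_zsmul, ← WithZero.exp_nsmul]
  congr 1
  simp

end ev

/-! ### The local condition -/

section ploc

theorem ploc_map {F F' : Type} [Field F] [Field F'] [Algebra ℚ F] [Algebra ℚ F'] (j : F →+* F')
    {A B : ℚ} {h : ℚ[X]} (hl : PLoc F A B h) : PLoc F' A B h := by
  have hj : j.comp (algebraMap ℚ F) = algebraMap ℚ F' := Subsingleton.elim _ _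
  have hj' : ∀ x : ℚ, j (algebraMap ℚ F x) = algebraMap ℚ F' x := fun x => by
    rw [← hj]
    rfl
  have e1 : (X ^ 3 + C (algebraMap ℚ F A) * X + C (algebraMap ℚ F B) : F[X]).map j =
      X ^ 3 + C (algebraMap ℚ F' A) * X + C (algebraMap ℚ F' B) := by
    simp [hj']
  have e2 : (h.map (algebraMap ℚ F)).map j = h.map (algebraMap ℚ F') := by
    rw [Polynomial.map_map, hj]
  rcases hl with ⟨g, hg⟩ | ⟨x, y, hy, hxy, g, hg⟩
  · left
    refine ⟨g.map j, ?_⟩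
    have := Polynomial.map_dvd j hg
    rwa [e1, Polynomial.map_sub, e2, Polynomial.map_pow] at this
  · right
    refine ⟨j x, j y, (map_ne_zero j).2 hy, ?_, g.map j, ?_⟩
    · have := congrArg j hxy
      rwa [map_pow, map_add, map_add, map_pow, map_mul, hj', hj'] at this
    · have := Polynomial.map_dvd j hg
      rwa [e1, Polynomial.map_sub, Polynomial.map_mul, e2, Polynomial.map_pow,
        Polynomial.map_sub, Polynomial.map_C, Polynomial.map_X] at this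

/-- The local condition over `ℚ_p`. -/
theorem ploc_padic {p : ℕ} [Fact p.Prime] (h2 : p ≠ 2) {A B : ℚ} {h : ℚ[X]}
    (hl : ∀ w : HeightOneSpectrum (𝓞 ℚ), ¬ Ov 2 w → PLoc (w.adicCompletion ℚ) A B h) :
    PLoc ℚ_[p] A B h := by
  have hp : p.Prime := Fact.out
  obtain ⟨σ, hσ⟩ : ∃ σ : ℚ →+* ℚ_[p], σ = algebraMap ℚ ℚ_[p] := ⟨_, rfl⟩
  have hc := Pool.Agent.N816.PQ.Emb.wf_cont (R := 𝓞 ℚ) σ
  refine ploc_map ((UniformSpace.Completion.extensionHom
    (Pool.Agent.N816.PQ.Emb.wf (𝓞 ℚ) σ) hc).comp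
    (HeightOneSpectrum.adicCompletion.equiv ℚ (pl (𝓞 ℚ) σ)).toRingHom) (hl _ fun h => ?_)
  have h3 : Ov (p : ℤ) (pl (𝓞 ℚ) σ) := by
    have := p_mem (R := 𝓞 ℚ) σ
    unfold Ov
    rw [Int.cast_natCast]
    exact this
  have := below_unique (isPr_nat Nat.prime_two) (isPr_nat hp) h h3
  apply h2
  exact_mod_cast this.symm

end ploc

end Pool.Agent.H30GS
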