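import Pool.Agent.H30GS.Cls
import Pool.Agent.N874.PM.Stm

/-!
# The local conditions at a prime with three zeros
-/

set_option autoImplicit false
set_option linter.all false

open Polynomial
open Pool.Agent.N874.PM (PLoc)

namespace Pool.Agent.H30GS

variable {p : ℕ} [Fact p.Prime]

/-- Three zeros of `x ^ 3 + a x + b`, different modulo `p`. -/
structure Rts (a b : ℤ) (t : Fin 3 → ℚ_[p]) : Prop where
  int : ∀ i, ‖t i‖ ≤ 1
  sep : ∀ i j, i ≠ j → ‖t i - t j‖ = 1
  root : ∀ i, t i ^ 3 + a * t i + b = 0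

theorem Rts.ne {a b : ℤ} {t : Fin 3 → ℚ_[p]} (h : Rts a b t) {i j : Fin 3} (hij : i ≠ j) :
    t i - t j ≠ 0 := by
  intro h0
  have := h.sep i j hij
  rw [h0, norm_zero] at this
  exact zero_ne_one this

theorem Rts.sum {a b : ℤ} {t : Fin 3 → ℚ_[p]} (h : Rts a b t) : t 0 + t 1 + t 2 = 0 := by
  have h01 := h.ne (i := 0) (j := 1) (by decide)
  have h02 := h.ne (i := 0) (j := 2) (by decide)
  have h12 := h.ne (i := 1) (j := 2) (by decide)
  have e1 : t 0 ^ 2 + t 0 * t 1 + t 1 ^ 2 + a = 0 := by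
    apply mul_left_cancel₀ h01
    linear_combination h.root 0 - h.root 1
  have e2 : t 0 ^ 2 + t 0 * t 2 + t 2 ^ 2 + a = 0 := by
    apply mul_left_cancel₀ h02
    linear_combination h.root 0 - h.root 2
  apply mul_left_cancel₀ h12
  linear_combination e1 - e2

theorem Rts.ea {a b : ℤ} {t : Fin 3 → ℚ_[p]} (h : Rts a b t) :
    (a : ℚ_[p]) = t 0 * t 1 + t 0 * t 2 + t 1 * t 2 := by
  have h01 := h.ne (i := 0) (j := 1) (by decide)
  have e1 : t 0 ^ 2 + t 0 * t 1 + t 1 ^ 2 + a = 0 := by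
    apply mul_left_cancel₀ h01
    linear_combination h.root 0 - h.root 1
  have h3 := h.sum
  have h4 : t 2 = -t 0 - t 1 := by linear_combination h3
  rw [h4]
  linear_combination e1

theorem Rts.eb {a b : ℤ} {t : Fin 3 → ℚ_[p]} (h : Rts a b t) :
    (b : ℚ_[p]) = -(t 0 * t 1 * t 2) := by
  have h3 := h.sum
  have h4 := h.ea
  have h5 := h.root 0
  rw [h4] at h5
  linear_combination h5 - t 0 ^ 2 * h3

theorem Rts.fac {a b : ℤ} {t : Fin 3 → ℚ_[p]} (h : Rts a b t) (x : ℚ_[p]) :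
    x ^ 3 + a * x + b = (x - t 0) * (x - t 1) * (x - t 2) := by
  rw [h.ea, h.eb]
  linear_combination (x ^ 2) * h.sum

/-- The image of the points of order two: the class of `x` is trivial, or that of a point
`(τ t_i, 0)` of the twist by `τ`, `τ` of valuation one, `c = cc τ`. -/
def KK (t : Fin 3 → ℚ_[p]) (c : ZMod 2) (x : Fin 3 → ℚ_[p]) : Prop :=
  (∀ i, vv (x i) = 0 ∧ cc (x i) = 0) ∨
  ∃ i, (∀ j, j ≠ i → vv (x j) = 1 ∧ cc (x j) = c + cc (t i - t j)) ∧ vv (x i) = 0 ∧
    cc (x i) = cc (t i - t (i + 1)) + cc (t i - t (i + 2))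

theorem cc_sub (h2 : p ≠ 2) {x y : ℚ_[p]} (h : x - y ≠ 0) :
    cc (y - x) = cc (-1 : ℚ_[p]) + cc (x - y) := by
  have e : y - x = -1 * (x - y) := by ring
  rw [e, cc_mul h2 (by norm_num) h]

theorem zz (a : ZMod 2) : a + a = 0 := CharTwo.add_self_eq_zero a

/-- The local image for the twist by `τ`. -/
theorem kummer (h2 : p ≠ 2) {a b : ℤ} {t : Fin 3 → ℚ_[p]} (hR : Rts a b t) {τ : ℤ}
    (hτ : ‖(τ : ℚ_[p])‖ = (p : ℝ)⁻¹) {h : ℚ[X]}
    (hl : PLoc ℚ_[p] (((a * τ ^ 2 : ℤ)) : ℚ) (((b * τ ^ 3 : ℤ)) : ℚ) h)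
    (h0 : ∀ i, aeval ((τ : ℚ_[p]) * t i) h ≠ 0) :
    KK t (cc (τ : ℚ_[p])) fun i => aeval ((τ : ℚ_[p]) * t i) h := by
  have hp : p.Prime := Fact.out
  have hp1 : (1 : ℝ) < p := by exact_mod_cast hp.one_lt
  have hpi : (p : ℝ)⁻¹ < 1 := inv_lt_one_of_one_lt₀ hp1
  have hpp : (0 : ℝ) < (p : ℝ)⁻¹ := by positivity
  have hτ0 : (τ : ℚ_[p]) ≠ 0 := by
    intro h
    rw [h, norm_zero] at hτ
    exact hpp.ne hτ
  have hvτ : vv (τ : ℚ_[p]) = 1 := by
    unfold vv
    rw [Padic.norm_eq_zpow_neg_valuation hτ0, ← zpow_neg_one] at hτ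
    have h3 := zpow_right_injective₀ (by positivity) hp1.ne' hτ
    have h4 : (τ : ℚ_[p]).valuation = 1 := by omega
    rw [h4]
    rfl
  have hev : ∀ i, aeval ((τ : ℚ_[p]) * t i) h = (h.map (algebraMap ℚ ℚ_[p])).eval (τ * t i) :=
    fun i => by rw [eval_map_algebraMap]
  have hf : ∀ i, (X ^ 3 + C (algebraMap ℚ ℚ_[p] (((a * τ ^ 2 : ℤ)) : ℚ)) * X +
      C (algebraMap ℚ ℚ_[p] (((b * τ ^ 3 : ℤ)) : ℚ)) : ℚ_[p][X]).eval (τ * t i) = 0 := by
    intro i
    simp only [eval_add, eval_mul, eval_pow, eval_X, eval_C]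
    rw [map_intCast, map_intCast]
    push_cast
    linear_combination (τ : ℚ_[p]) ^ 3 * hR.root i
  rcases hl with ⟨g, hg⟩ | ⟨x, y, hy, hxy, g, hg⟩
  · left
    intro i
    apply (sq_iff (h0 i)).1
    obtain ⟨q, hq⟩ := hg
    have h3 := congrArg (Polynomial.eval ((τ : ℚ_[p]) * t i)) hq
    rw [eval_mul, hf i, zero_mul, eval_sub, eval_pow, sub_eq_zero, ← hev i] at h3
    rw [h3]
    exact ⟨_, sq _⟩
  -- a point
  rw [map_intCast, map_intCast] at hxy
  have hfac : y ^ 2 = (x - τ * t 0) * (x - τ * t 1) * (x - τ * t 2) := by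
    rw [hxy]
    push_cast
    rw [hR.ea, hR.eb]
    linear_combination (x ^ 2 * τ) * hR.sum
  have hne : ∀ i, x - τ * t i ≠ 0 := by
    have h3 : (x - τ * t 0) * (x - τ * t 1) * (x - τ * t 2) ≠ 0 := by
      rw [← hfac]
      exact pow_ne_zero 2 hy
    intro i
    fin_cases i
    · exact left_ne_zero_of_mul (left_ne_zero_of_mul h3)
    · exact right_ne_zero_of_mul (left_ne_zero_of_mul h3)
    · exact right_ne_zero_of_mul h3
  have hsq : ∀ i, vv (aeval ((τ : ℚ_[p]) * t i) h) = vv (x - (τ : ℚ_[p]) * t i) ∧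
      cc (aeval ((τ : ℚ_[p]) * t i) h) = cc (x - (τ : ℚ_[p]) * t i) := by
    intro i
    obtain ⟨q, hq⟩ := hg
    have h3 := congrArg (Polynomial.eval ((τ : ℚ_[p]) * t i)) hq
    rw [eval_mul, hf i, zero_mul, eval_sub, eval_pow, sub_eq_zero, eval_mul, ← hev i, eval_sub,
      eval_C, eval_X] at h3
    have h4 : IsSquare ((x - τ * t i) * aeval ((τ : ℚ_[p]) * t i) h) := by
      rw [h3]
      exact ⟨_, sq _⟩
    have h5 := (sq_iff (mul_ne_zero (hne i) (h0 i))).1 h4
    rw [vv_mul (hne i) (h0 i), cc_mul h2 (hne i) (h0 i), CharTwo.add_eq_zero,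
      CharTwo.add_eq_zero] at h5
    exact ⟨h5.1.symm, h5.2.symm⟩
  have hprod : vv (x - (τ : ℚ_[p]) * t 0) + vv (x - (τ : ℚ_[p]) * t 1) +
        vv (x - (τ : ℚ_[p]) * t 2) = 0 ∧
      cc (x - (τ : ℚ_[p]) * t 0) + cc (x - (τ : ℚ_[p]) * t 1) +
        cc (x - (τ : ℚ_[p]) * t 2) = 0 := by
    have h4 : IsSquare ((x - τ * t 0) * (x - τ * t 1) * (x - τ * t 2)) := by
      rw [← hfac]
      exact ⟨_, sq _⟩
    have h5 := (sq_iff (mul_ne_zero (mul_ne_zero (hne 0) (hne 1)) (hne 2))).1 h4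
    rwa [vv_mul (mul_ne_zero (hne 0) (hne 1)) (hne 2), cc_mul h2 (mul_ne_zero (hne 0) (hne 1)) (hne 2),
      vv_mul (hne 0) (hne 1), cc_mul h2 (hne 0) (hne 1)] at h5
  by_cases hx1 : 1 ≤ ‖x‖
  · -- all classes are that of `x`
    have h3 : ∀ i, vv (x - (τ : ℚ_[p]) * t i) = vv x ∧ cc (x - (τ : ℚ_[p]) * t i) = cc x := by
      intro i
      apply cl_near h2
      have e : x - τ * t i - x = -(τ * t i) := by ring
      rw [e, norm_neg, norm_mul, hτ]
      calc (p : ℝ)⁻¹ * ‖t i‖ ≤ (p : ℝ)⁻¹ * 1 := mul_le_mul_of_nonneg_left (hR.int i) hpp.le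
        _ < 1 := by rwa [mul_one]
        _ ≤ ‖x‖ := hx1
    rw [(h3 0).1, (h3 1).1, (h3 2).1, (h3 0).2, (h3 1).2, (h3 2).2, zz, zero_add, zz,
      zero_add] at hprod
    left
    intro i
    show vv (aeval ((τ : ℚ_[p]) * t i) h) = 0 ∧ cc (aeval ((τ : ℚ_[p]) * t i) h) = 0
    rw [(hsq i).1, (hsq i).2, (h3 i).1, (h3 i).2]
    exact hprod
  · -- `x = τ z`
    rw [not_le] at hx1
    have hxp : ‖x‖ ≤ (p : ℝ)⁻¹ := by
      by_cases hx0 : x = 0
      · rw [hx0, norm_zero]
        exact hpp.le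
      · have h3 := Padic.norm_eq_zpow_neg_valuation hx0
        rw [h3] at hx1
        have h4 : -x.valuation < 0 := by
          by_contra h5
          rw [not_lt] at h5
          exact absurd hx1 (not_lt.2 (one_le_zpow₀ hp1.le h5))
        rw [h3, ← zpow_neg_one]
        exact zpow_le_zpow_right₀ hp1.le (by omega)
    obtain ⟨z, hz⟩ : ∃ z, z = x / τ := ⟨_, rfl⟩
    have hxz : x = τ * z := by
      rw [hz]
      field_simp
    have hz1 : ‖z‖ ≤ 1 := by
      rw [hz, norm_div, hτ]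
      exact (div_le_one hpp).2 hxp
    have hzi : ∀ i, ‖z - t i‖ ≤ 1 := fun i =>
      (Padic.nonarchimedean z (-t i)).trans (max_le hz1 (by rw [norm_neg]; exact hR.int i)) |>
        fun h => by rwa [← sub_eq_add_neg] at h
    have hzne : ∀ i, z - t i ≠ 0 := by
      intro i h3
      apply hne i
      rw [hxz]
      linear_combination τ * h3
    have hex : ∃ i, ‖z - t i‖ < 1 := by
      by_contra hcon
      push Not at hcon
      have h3 : ∀ i, vv (x - (τ : ℚ_[p]) * t i) = 1 := by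
        intro i
        have e : x - τ * t i = τ * (z - t i) := by rw [hxz]; ring
        rw [e, vv_mul hτ0 (hzne i), hvτ, vv_unit (le_antisymm (hzi i) (hcon i)), add_zero]
      have h4 := hprod.1
      rw [h3, h3, h3] at h4
      revert h4
      decide
    obtain ⟨i, hi⟩ := hex
    have hj : ∀ j, j ≠ i → vv (x - (τ : ℚ_[p]) * t j) = 1 ∧ cc (x - (τ : ℚ_[p]) * t j) =
        cc (τ : ℚ_[p]) + cc (t i - t j) := by
      intro j hji
      have e : x - τ * t j = τ * (z - t j) := by rw [hxz]; ring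
      have hD := hR.sep i j hji.symm
      have h3 : vv (z - t j) = vv (t i - t j) ∧ cc (z - t j) = cc (t i - t j) := by
        apply cl_near h2
        have e2 : z - t j - (t i - t j) = z - t i := by ring
        rw [e2, hD]
        exact hi
      rw [e, vv_mul hτ0 (hzne j), cc_mul h2 hτ0 (hzne j), hvτ, h3.1, h3.2, vv_unit hD, add_zero]
      exact ⟨rfl, rfl⟩
    right
    refine ⟨i, fun j hji => ?_, ?_⟩
    · show vv (aeval ((τ : ℚ_[p]) * t j) h) = 1 ∧ cc (aeval ((τ : ℚ_[p]) * t j) h) = _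
      rw [(hsq j).1, (hsq j).2]
      exact hj j hji
    · show vv (aeval ((τ : ℚ_[p]) * t i) h) = 0 ∧ cc (aeval ((τ : ℚ_[p]) * t i) h) = _
      rw [(hsq i).1, (hsq i).2]
      have q1 : ∀ i : Fin 3, i + 1 ≠ i := by decide
      have q2 : ∀ i : Fin 3, i + 2 ≠ i := by decide
      have k1 := hj (i + 1) (q1 i)
      have k2 := hj (i + 2) (q2 i)
      have hs : ∀ u v w : ZMod 2, u + v + w = 0 → w = u + v := by decide
      have hs2 : ∀ u v w : ZMod 2, u + v + w = 0 → u = v + w := by decide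
      have hs3 : ∀ u v w : ZMod 2, u + v + w = 0 → v = w + u := by decide
      have hv : vv (x - (τ : ℚ_[p]) * t i) = vv (x - (τ : ℚ_[p]) * t (i + 1)) + vv (x - (τ : ℚ_[p]) * t (i + 2)) ∧
          cc (x - (τ : ℚ_[p]) * t i) = cc (x - (τ : ℚ_[p]) * t (i + 1)) + cc (x - (τ : ℚ_[p]) * t (i + 2)) := by
        fin_cases i
        · exact ⟨hs2 _ _ _ hprod.1, hs2 _ _ _ hprod.2⟩
        · exact ⟨hs3 _ _ _ hprod.1, hs3 _ _ _ hprod.2⟩
        · exact ⟨hs _ _ _ hprod.1, hs _ _ _ hprod.2⟩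
      rw [hv.1, hv.2, k1.1, k2.1, k1.2, k2.2]
      refine ⟨by decide, ?_⟩
      have : ∀ c u v : ZMod 2, c + u + (c + v) = u + v := by decide
      exact this _ _ _

/-! ### The finite group of classes -/

/-- The class. -/
noncomputable def cl (x : Fin 3 → ℚ_[p]) : Fin 3 → ZMod 2 × ZMod 2 := fun i => (vv (x i), cc (x i))

/-- The classes of the points of order two; `s = cc (-1)`, `x = cc (t_0 - t_1)`, `y = cc (t_0 - t_2)`,
`z = cc (t_1 - t_2)`. -/
def TT (s c x y z : ZMod 2) : Fin 3 → Fin 3 → ZMod 2 × ZMod 2 :=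
  ![![(0, x + y), (1, c + x), (1, c + y)],
    ![(1, c + (s + x)), (0, z + (s + x)), (1, c + z)],
    ![(1, c + (s + y)), (1, c + (s + z)), (0, (s + y) + (s + z))]]

theorem tt_add : ∀ s c x y z : ZMod 2, ∀ i j : Fin 3, TT s c x y z i + TT s c x y z j = 0 ∨
    ∃ k, TT s c x y z i + TT s c x y z j = TT s c x y z k := by
  decide

theorem cl_mul (h2 : p ≠ 2) {x y : Fin 3 → ℚ_[p]} (hx0 : ∀ i, x i ≠ 0) (hy0 : ∀ i, y i ≠ 0) :
    cl (fun i => x i * y i) = cl x + cl y := by
  funext i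
  exact Prod.ext (vv_mul (hx0 i) (hy0 i)) (cc_mul h2 (hx0 i) (hy0 i))

theorem kk_tab (h2 : p ≠ 2) {a b : ℤ} {t : Fin 3 → ℚ_[p]} (hR : Rts a b t) {c : ZMod 2}
    {x : Fin 3 → ℚ_[p]} : KK t c x ↔ (cl x = 0 ∨ ∃ i, cl x =
      TT (cc (-1 : ℚ_[p])) c (cc (t 0 - t 1)) (cc (t 0 - t 2)) (cc (t 1 - t 2)) i) := by
  have e10 := cc_sub h2 (hR.ne (i := 0) (j := 1) (by decide))
  have e20 := cc_sub h2 (hR.ne (i := 0) (j := 2) (by decide))
  have e21 := cc_sub h2 (hR.ne (i := 1) (j := 2) (by decide))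
  unfold KK
  constructor
  · rintro (h | ⟨i, h, h3, h4⟩)
    · left
      funext i
      exact Prod.ext (h i).1 (h i).2
    · right
      refine ⟨i, ?_⟩
      fin_cases i
      · funext j
        fin_cases j
        · exact Prod.ext h3 h4
        · exact Prod.ext (h 1 (by decide)).1 (h 1 (by decide)).2
        · exact Prod.ext (h 2 (by decide)).1 (h 2 (by decide)).2
      · have k0 := h 0 (by decide)
        have k2 := h 2 (by decide)
        have h4' : cc (x 1) = cc (t 1 - t 2) + cc (t 1 - t 0) := h4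
        have k0' : cc (x 0) = c + cc (t 1 - t 0) := k0.2
        rw [e10] at h4' k0'
        funext j
        fin_cases j
        · exact Prod.ext k0.1 k0'
        · exact Prod.ext h3 h4'
        · exact Prod.ext k2.1 k2.2
      · have k0 := h 0 (by decide)
        have k1 := h 1 (by decide)
        have h4' : cc (x 2) = cc (t 2 - t 0) + cc (t 2 - t 1) := h4
        have k0' : cc (x 0) = c + cc (t 2 - t 0) := k0.2
        have k1' : cc (x 1) = c + cc (t 2 - t 1) := k1.2
        rw [e20, e21] at h4'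
        rw [e20] at k0'
        rw [e21] at k1'
        funext j
        fin_cases j
        · exact Prod.ext k0.1 k0'
        · exact Prod.ext k1.1 k1'
        · exact Prod.ext h3 h4'
  · rintro (h | ⟨i, h⟩)
    · left
      intro i
      have := congrFun h i
      exact ⟨congrArg Prod.fst this, congrArg Prod.snd this⟩
    · right
      have g0 := congrFun h 0
      have g1 := congrFun h 1
      have g2 := congrFun h 2
      have f0 := congrArg Prod.fst g0
      have f1 := congrArg Prod.fst g1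
      have f2 := congrArg Prod.fst g2
      have s0 := congrArg Prod.snd g0
      have s1 := congrArg Prod.snd g1
      have s2 := congrArg Prod.snd g2
      refine ⟨i, ?_⟩
      fin_cases i
      · refine ⟨fun j hj => ?_, f0, s0⟩
        fin_cases j
        · exact absurd rfl hj
        · exact ⟨f1, s1⟩
        · exact ⟨f2, s2⟩
      · refine ⟨fun j hj => ?_, f1, ?_⟩
        · fin_cases j
          · refine ⟨f0, ?_⟩
            show cc (x 0) = c + cc (t 1 - t 0)
            rw [e10]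
            exact s0
          · exact absurd rfl hj
          · exact ⟨f2, s2⟩
        · show cc (x 1) = cc (t 1 - t 2) + cc (t 1 - t 0)
          rw [e10]
          exact s1
      · refine ⟨fun j hj => ?_, f2, ?_⟩
        · fin_cases j
          · refine ⟨f0, ?_⟩
            show cc (x 0) = c + cc (t 2 - t 0)
            rw [e20]
            exact s0
          · refine ⟨f1, ?_⟩
            show cc (x 1) = c + cc (t 2 - t 1)
            rw [e21]
            exact s1
          · exact absurd rfl hj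
        · show cc (x 2) = cc (t 2 - t 0) + cc (t 2 - t 1)
          rw [e20, e21]
          exact s2

/-- The conditions form a group. -/
theorem kk_mul (h2 : p ≠ 2) {a b : ℤ} {t : Fin 3 → ℚ_[p]} (hR : Rts a b t) {c : ZMod 2}
    {x y : Fin 3 → ℚ_[p]} (hx0 : ∀ i, x i ≠ 0) (hy0 : ∀ i, y i ≠ 0) (hx : KK t c x)
    (hy : KK t c y) : KK t c fun i => x i * y i := by
  rw [kk_tab h2 hR] at hx hy ⊢
  rw [cl_mul h2 hx0 hy0]
  rcases hx with hx | ⟨i, hx⟩
  · rw [hx, zero_add]
    exact hy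
  · rcases hy with hy | ⟨j, hy⟩
    · rw [hy, add_zero]
      exact Or.inr ⟨i, hx⟩
    · rw [hx, hy]
      exact tt_add _ _ _ _ _ i j

/-! ### Isotropy -/

/-- The form `∑ u_i ^ 2 / (x_i f'(t_i))` is isotropic. -/
def Iso (t x : Fin 3 → ℚ_[p]) : Prop :=
  ∃ u : Fin 3 → ℚ_[p], u ≠ 0 ∧
    u 0 ^ 2 / (x 0 * ((t 0 - t 1) * (t 0 - t 2))) + u 1 ^ 2 / (x 1 * ((t 1 - t 0) * (t 1 - t 2))) +
      u 2 ^ 2 / (x 2 * ((t 2 - t 0) * (t 2 - t 1))) = 0

/-- The isotropy in terms of the classes, for two odd valuations. -/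
def IC (s x y z : ZMod 2) (v : Fin 3 → ZMod 2 × ZMod 2) : Prop :=
  ((v 0).1 = 0 → (v 1).1 = 1 → (v 2).1 = 1 → (v 1).2 + x = (v 2).2 + y) ∧
  ((v 1).1 = 0 → (v 0).1 = 1 → (v 2).1 = 1 → (v 0).2 + (s + x) = (v 2).2 + z) ∧
  ((v 2).1 = 0 → (v 0).1 = 1 → (v 1).1 = 1 → (v 0).2 + (s + y) = (v 1).2 + (s + z))

instance (s x y z : ZMod 2) (v : Fin 3 → ZMod 2 × ZMod 2) : Decidable (IC s x y z v) := by
  unfold IC
  infer_instance

/-- Two odd valuations and one even: the sum of two terms of odd valuation whose negative product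
is not a square. -/
theorem iso_aux (h2 : p ≠ 2) {α β γ u v w : ℚ_[p]} (hα : α ≠ 0) (hβ : β ≠ 0) (hγ : γ ≠ 0)
    (va : vv α = 0) (vb : vv β = 1) (vc : vv γ = 1) (hne : ¬ (u = 0 ∧ v = 0 ∧ w = 0))
    (h : u ^ 2 * α + v ^ 2 * β + w ^ 2 * γ = 0) : IsSquare (-(β * γ)) := by
  by_cases hv : v = 0
  · exfalso
    rw [hv] at h
    have h3 : u ^ 2 * α = -1 * (w ^ 2 * γ) := by linear_combination h
    by_cases hu : u = 0
    · rw [hu] at h3
      have h4 : w ^ 2 * γ = 0 := by linear_combination h3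
      have h5 : w = 0 := by
        rcases mul_eq_zero.1 h4 with h5 | h5
        · exact pow_eq_zero_iff (two_ne_zero) |>.1 h5
        · exact absurd h5 hγ
      exact hne ⟨hu, hv, h5⟩
    · have hw : w ≠ 0 := by
        rintro rfl
        have h4 : u ^ 2 * α = 0 := by linear_combination h3
        exact mul_ne_zero (pow_ne_zero 2 hu) hα h4
      have h4 := congrArg vv h3
      rw [vv_mul (pow_ne_zero 2 hu) hα, vv_mul (by norm_num) (mul_ne_zero (pow_ne_zero 2 hw) hγ),
        vv_mul (pow_ne_zero 2 hw) hγ, sq, sq, vv_mul hu hu, vv_mul hw hw, zz, zz, va, vc,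
        vv_unit (by rw [norm_neg, norm_one])] at h4
      revert h4
      decide
  · -- compare the terms with `β`, `γ`
    by_cases hw : w = 0
    · exfalso
      rw [hw] at h
      have h3 : u ^ 2 * α = -1 * (v ^ 2 * β) := by linear_combination h
      have hu : u ≠ 0 := by
        rintro rfl
        have h4 : v ^ 2 * β = 0 := by linear_combination h3
        exact mul_ne_zero (pow_ne_zero 2 hv) hβ h4
      have h4 := congrArg vv h3
      rw [vv_mul (pow_ne_zero 2 hu) hα, vv_mul (by norm_num) (mul_ne_zero (pow_ne_zero 2 hv) hβ),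
        vv_mul (pow_ne_zero 2 hv) hβ, sq, sq, vv_mul hu hu, vv_mul hv hv, zz, zz, va, vb,
        vv_unit (by rw [norm_neg, norm_one])] at h4
      revert h4
      decide
    · -- all the three terms
      obtain ⟨A, hA⟩ : ∃ A, A = u ^ 2 * α := ⟨_, rfl⟩
      obtain ⟨B, hB⟩ : ∃ B, B = v ^ 2 * β := ⟨_, rfl⟩
      obtain ⟨G, hG⟩ : ∃ G, G = w ^ 2 * γ := ⟨_, rfl⟩
      have hB0 : B ≠ 0 := by rw [hB]; exact mul_ne_zero (pow_ne_zero 2 hv) hβ
      have hG0 : G ≠ 0 := by rw [hG]; exact mul_ne_zero (pow_ne_zero 2 hw) hγ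
      have hBv : vv B = 1 := by
        rw [hB, vv_mul (pow_ne_zero 2 hv) hβ, sq, vv_mul hv hv, zz, vb, zero_add]
      have hGv : vv G = 1 := by
        rw [hG, vv_mul (pow_ne_zero 2 hw) hγ, sq, vv_mul hw hw, zz, vc, zero_add]
      have hsum : A + B + G = 0 := by rw [hA, hB, hG]; exact h
      -- `A` is smaller than `B`
      have key : ‖A‖ < ‖B‖ ∨ ‖A‖ < ‖G‖ := by
        by_contra hcon
        push Not at hcon
        obtain ⟨k1, k2⟩ := hcon
        have hA0 : A ≠ 0 := by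
          intro h0
          rw [h0, norm_zero] at k1
          exact hB0 (norm_le_zero_iff.1 k1)
        have hAv : vv A = 0 := by
          have hu : u ≠ 0 := by
            rintro rfl
            apply hA0
            rw [hA]
            ring
          rw [hA, vv_mul (pow_ne_zero 2 hu) hα, sq, vv_mul hu hu, zz, va, zero_add]
        have k3 : ‖A‖ ≤ max ‖B‖ ‖G‖ := by
          have e : A = -(B + G) := by linear_combination hsum
          rw [e, norm_neg]
          exact Padic.nonarchimedean _ _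
        have k4 : ‖A‖ = ‖B‖ ∨ ‖A‖ = ‖G‖ := by
          rcases le_max_iff.1 k3 with h5 | h5
          · exact Or.inl (le_antisymm h5 k1)
          · exact Or.inr (le_antisymm h5 k2)
        have hval : ∀ x y : ℚ_[p], x ≠ 0 → y ≠ 0 → ‖x‖ = ‖y‖ → vv x = vv y := by
          intro x y hx hy hxy
          have hp1 : (1 : ℝ) < p := by exact_mod_cast (Fact.out : p.Prime).one_lt
          rw [Padic.norm_eq_zpow_neg_valuation hx, Padic.norm_eq_zpow_neg_valuation hy] at hxy
          have h3 := zpow_right_injective₀ (by positivity) hp1.ne' hxy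
          unfold vv
          have h4 : x.valuation = y.valuation := by omega
          rw [h4]
        rcases k4 with h5 | h5
        · have := hval A B hA0 hB0 h5
          rw [hAv, hBv] at this
          exact zero_ne_one this
        · have := hval A G hA0 hG0 h5
          rw [hAv, hGv] at this
          exact zero_ne_one this
      have hsq : IsSquare (-(B * G)) := by
        rcases key with h5 | h5
        · -- `-G` is near `B`
          have h7 := sq_near' h2 (x := -G) (y := B) (by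
            have e : -G - B = A := by linear_combination -hsum
            rw [e]
            exact h5)
          have e : -(B * G) = -G * B := by ring
          rw [e]
          exact h7
        · have h7 := sq_near' h2 (x := -B) (y := G) (by
            have e : -B - G = A := by linear_combination -hsum
            rw [e]
            exact h5)
          have e : -(B * G) = -B * G := by ring
          rw [e]
          exact h7
      obtain ⟨r, hr⟩ := hsq
      refine ⟨r / (v * w), ?_⟩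
      rw [hB, hG] at hr
      field_simp
      linear_combination hr

/-- Isotropy of the form in terms of the classes. -/
theorem ic_of_iso (h2 : p ≠ 2) {a b : ℤ} {t x : Fin 3 → ℚ_[p]} (hR : Rts a b t)
    (hx0 : ∀ i, x i ≠ 0) (h : Iso t x) :
    IC (cc (-1 : ℚ_[p])) (cc (t 0 - t 1)) (cc (t 0 - t 2)) (cc (t 1 - t 2)) (cl x) := by
  have h01 := hR.ne (i := 0) (j := 1) (by decide)
  have h02 := hR.ne (i := 0) (j := 2) (by decide)
  have h12 := hR.ne (i := 1) (j := 2) (by decide)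
  have h10 := hR.ne (i := 1) (j := 0) (by decide)
  have h20 := hR.ne (i := 2) (j := 0) (by decide)
  have h21 := hR.ne (i := 2) (j := 1) (by decide)
  have e10 := cc_sub h2 h01
  have e20 := cc_sub h2 h02
  have e21 := cc_sub h2 h12
  have v01 := vv_unit (hR.sep 0 1 (by decide))
  have v02 := vv_unit (hR.sep 0 2 (by decide))
  have v12 := vv_unit (hR.sep 1 2 (by decide))
  have v10 := vv_unit (hR.sep 1 0 (by decide))
  have v20 := vv_unit (hR.sep 2 0 (by decide))
  have v21 := vv_unit (hR.sep 2 1 (by decide))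
  obtain ⟨u, hu, hform⟩ := h
  have hun : ¬ (u 0 = 0 ∧ u 1 = 0 ∧ u 2 = 0) := by
    rintro ⟨k0, k1, k2⟩
    apply hu
    funext i
    fin_cases i
    · exact k0
    · exact k1
    · exact k2
  obtain ⟨g0, hg0⟩ : ∃ g, g = x 0 * ((t 0 - t 1) * (t 0 - t 2)) := ⟨_, rfl⟩
  obtain ⟨g1, hg1⟩ : ∃ g, g = x 1 * ((t 1 - t 0) * (t 1 - t 2)) := ⟨_, rfl⟩
  obtain ⟨g2, hg2⟩ : ∃ g, g = x 2 * ((t 2 - t 0) * (t 2 - t 1)) := ⟨_, rfl⟩
  have n0 : g0 ≠ 0 := by rw [hg0]; exact mul_ne_zero (hx0 0) (mul_ne_zero h01 h02)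
  have n1 : g1 ≠ 0 := by rw [hg1]; exact mul_ne_zero (hx0 1) (mul_ne_zero h10 h12)
  have n2 : g2 ≠ 0 := by rw [hg2]; exact mul_ne_zero (hx0 2) (mul_ne_zero h20 h21)
  have w0 : vv g0⁻¹ = vv (x 0) := by
    rw [(cl_inv h2 n0).1, hg0, vv_mul (hx0 0) (mul_ne_zero h01 h02), vv_mul h01 h02, v01, v02,
      add_zero, add_zero]
  have w1 : vv g1⁻¹ = vv (x 1) := by
    rw [(cl_inv h2 n1).1, hg1, vv_mul (hx0 1) (mul_ne_zero h10 h12), vv_mul h10 h12, v10, v12,
      add_zero, add_zero]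
  have w2 : vv g2⁻¹ = vv (x 2) := by
    rw [(cl_inv h2 n2).1, hg2, vv_mul (hx0 2) (mul_ne_zero h20 h21), vv_mul h20 h21, v20, v21,
      add_zero, add_zero]
  have c0 : cc g0⁻¹ = cc (x 0) + (cc (t 0 - t 1) + cc (t 0 - t 2)) := by
    rw [(cl_inv h2 n0).2, hg0, cc_mul h2 (hx0 0) (mul_ne_zero h01 h02), cc_mul h2 h01 h02]
  have c1 : cc g1⁻¹ = cc (x 1) + ((cc (-1 : ℚ_[p]) + cc (t 0 - t 1)) + cc (t 1 - t 2)) := by
    rw [(cl_inv h2 n1).2, hg1, cc_mul h2 (hx0 1) (mul_ne_zero h10 h12), cc_mul h2 h10 h12, e10]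
  have c2 : cc g2⁻¹ = cc (x 2) + ((cc (-1 : ℚ_[p]) + cc (t 0 - t 2)) +
      (cc (-1 : ℚ_[p]) + cc (t 1 - t 2))) := by
    rw [(cl_inv h2 n2).2, hg2, cc_mul h2 (hx0 2) (mul_ne_zero h20 h21), cc_mul h2 h20 h21, e20, e21]
  rw [← hg0, ← hg1, ← hg2] at hform
  have hneg : ∀ A B : ℚ_[p], A ≠ 0 → B ≠ 0 → IsSquare (-(A * B)) →
      cc (-1 : ℚ_[p]) + (cc A + cc B) = 0 := by
    intro A B hA hB h3
    have e : -(A * B) = -1 * (A * B) := by ring
    rw [e] at h3
    have h4 := (sq_iff (mul_ne_zero (by norm_num) (mul_ne_zero hA hB))).1 h3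
    rw [cc_mul h2 (by norm_num) (mul_ne_zero hA hB), cc_mul h2 hA hB] at h4
    exact h4.2
  refine ⟨fun k0 k1 k2 => ?_, fun k0 k1 k2 => ?_, fun k0 k1 k2 => ?_⟩
  · have k0' : vv (x 0) = 0 := k0
    have k1' : vv (x 1) = 1 := k1
    have k2' : vv (x 2) = 1 := k2
    have h3 := iso_aux h2 (inv_ne_zero n0) (inv_ne_zero n1) (inv_ne_zero n2)
      (w0.trans k0') (w1.trans k1') (w2.trans k2') hun (by
        simp only [div_eq_mul_inv] at hform
        exact hform)
    have h4 := hneg _ _ (inv_ne_zero n1) (inv_ne_zero n2) h3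
    rw [c1, c2] at h4
    show cc (x 1) + cc (t 0 - t 1) = cc (x 2) + cc (t 0 - t 2)
    have : ∀ s A B x y z : ZMod 2, s + (A + (s + x + z) + (B + (s + y + (s + z)))) = 0 →
      A + x = B + y := by decide
    exact this _ _ _ _ _ _ h4
  · have k0' : vv (x 1) = 0 := k0
    have k1' : vv (x 0) = 1 := k1
    have k2' : vv (x 2) = 1 := k2
    have h3 := iso_aux h2 (inv_ne_zero n1) (inv_ne_zero n0) (inv_ne_zero n2)
      (w1.trans k0') (w0.trans k1') (w2.trans k2') (u := u 1) (v := u 0) (w := u 2)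
      (fun h => hun ⟨h.2.1, h.1, h.2.2⟩) (by
        simp only [div_eq_mul_inv] at hform
        linear_combination hform)
    have h4 := hneg _ _ (inv_ne_zero n0) (inv_ne_zero n2) h3
    rw [c0, c2] at h4
    show cc (x 0) + (cc (-1 : ℚ_[p]) + cc (t 0 - t 1)) = cc (x 2) + cc (t 1 - t 2)
    have : ∀ s A B x y z : ZMod 2, s + (A + (x + y) + (B + (s + y + (s + z)))) = 0 →
      A + (s + x) = B + z := by decide
    exact this _ _ _ _ _ _ h4
  · have k0' : vv (x 2) = 0 := k0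
    have k1' : vv (x 0) = 1 := k1
    have k2' : vv (x 1) = 1 := k2
    have h3 := iso_aux h2 (inv_ne_zero n2) (inv_ne_zero n0) (inv_ne_zero n1)
      (w2.trans k0') (w0.trans k1') (w1.trans k2') (u := u 2) (v := u 0) (w := u 1)
      (fun h => hun ⟨h.2.1, h.2.2, h.1⟩) (by
        simp only [div_eq_mul_inv] at hform
        linear_combination hform)
    have h4 := hneg _ _ (inv_ne_zero n0) (inv_ne_zero n1) h3
    rw [c0, c1] at h4
    show cc (x 0) + (cc (-1 : ℚ_[p]) + cc (t 0 - t 2)) =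
      cc (x 1) + (cc (-1 : ℚ_[p]) + cc (t 1 - t 2))
    have : ∀ s A B x y z : ZMod 2, s + (A + (x + y) + (B + ((s + x) + z))) = 0 →
      A + (s + y) = B + (s + z) := by decide
    exact this _ _ _ _ _ _ h4

/-- The classes in `KK` are isotropic. -/
theorem iso_of_kk (h2 : p ≠ 2) {a b : ℤ} {t x : Fin 3 → ℚ_[p]} (hR : Rts a b t)
    (hx0 : ∀ i, x i ≠ 0) {c : ZMod 2} (h : KK t c x) : Iso t x := by
  have h01 := hR.ne (i := 0) (j := 1) (by decide)
  have h02 := hR.ne (i := 0) (j := 2) (by decide)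
  have h12 := hR.ne (i := 1) (j := 2) (by decide)
  have h10 := hR.ne (i := 1) (j := 0) (by decide)
  have h20 := hR.ne (i := 2) (j := 0) (by decide)
  have h21 := hR.ne (i := 2) (j := 1) (by decide)
  have e10 := cc_sub h2 h01
  have e20 := cc_sub h2 h02
  have e21 := cc_sub h2 h12
  rcases h with h | ⟨i, hi, hi0, hi1⟩
  · have hs : ∀ i, IsSquare (x i) := fun i => (sq_iff (hx0 i)).2 (h i)
    choose s hs using hs
    have hs0 : ∀ i, s i ≠ 0 := by
      intro i h3
      apply hx0 i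
      rw [hs i, h3, mul_zero]
    refine ⟨s, fun h3 => hs0 0 (congrFun h3 0), ?_⟩
    rw [hs 0, hs 1, hs 2]
    have n0 := hs0 0
    have n1 := hs0 1
    have n2 := hs0 2
    field_simp
    ring
  · -- the product of two coefficients is minus a square
    have key : ∀ A B C D E : ℚ_[p], A ≠ 0 → B ≠ 0 → C ≠ 0 → D ≠ 0 → E ≠ 0 → vv A = 1 → vv B = 1 →
        cc A = c + cc C → cc B = c + cc D → vv C = 0 → vv D = 0 →
        IsSquare (A * B * (C * D)) := by
      intro A B C D E hA hB hC hD hE vA vB cA cB vC vD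
      rw [sq_iff (mul_ne_zero (mul_ne_zero hA hB) (mul_ne_zero hC hD)),
        vv_mul (mul_ne_zero hA hB) (mul_ne_zero hC hD), vv_mul hA hB, vv_mul hC hD,
        cc_mul h2 (mul_ne_zero hA hB) (mul_ne_zero hC hD), cc_mul h2 hA hB, cc_mul h2 hC hD,
        vA, vB, vC, vD, cA, cB]
      refine ⟨by decide, ?_⟩
      have : ∀ c u v : ZMod 2, c + u + (c + v) + (u + v) = 0 := by decide
      exact this _ _ _
    fin_cases i
    · have k1 := hi 1 (by decide)
      have k2 := hi 2 (by decide)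
      obtain ⟨r, hr⟩ := key (x 1) (x 2) (t 0 - t 1) (t 0 - t 2) 1 (hx0 1) (hx0 2) h01 h02 one_ne_zero
        k1.1 k2.1 k1.2 k2.2 (vv_unit (hR.sep 0 1 (by decide))) (vv_unit (hR.sep 0 2 (by decide)))
      have hr0 : r ≠ 0 := by
        rintro rfl
        rw [mul_zero] at hr
        exact mul_ne_zero (mul_ne_zero (hx0 1) (hx0 2)) (mul_ne_zero h01 h02) hr
      refine ⟨![0, x 1 * (t 1 - t 0), r], fun h3 => hr0 (by simpa using congrFun h3 2), ?_⟩
      have n1 := hx0 1
      have n2 := hx0 2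
      simp only [Matrix.cons_val_zero, Matrix.cons_val_one, Matrix.cons_val]
      have e : r ^ 2 = x 1 * x 2 * ((t 0 - t 1) * (t 0 - t 2)) := by rw [hr, sq]
      rw [e]
      field_simp
      ring
    · have k0 := hi 0 (by decide)
      have k2 := hi 2 (by decide)
      obtain ⟨r, hr⟩ := key (x 0) (x 2) (t 1 - t 0) (t 1 - t 2) 1 (hx0 0) (hx0 2) h10 h12 one_ne_zero
        k0.1 k2.1 k0.2 k2.2 (vv_unit (hR.sep 1 0 (by decide))) (vv_unit (hR.sep 1 2 (by decide)))
      have hr0 : r ≠ 0 := by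
        rintro rfl
        rw [mul_zero] at hr
        exact mul_ne_zero (mul_ne_zero (hx0 0) (hx0 2)) (mul_ne_zero h10 h12) hr
      refine ⟨![x 0 * (t 0 - t 1), 0, r], fun h3 => hr0 (by simpa using congrFun h3 2), ?_⟩
      have n1 := hx0 0
      have n2 := hx0 2
      simp only [Matrix.cons_val_zero, Matrix.cons_val_one, Matrix.cons_val]
      have e : r ^ 2 = x 0 * x 2 * ((t 1 - t 0) * (t 1 - t 2)) := by rw [hr, sq]
      rw [e]
      field_simp
      ring
    · have k0 := hi 0 (by decide)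
      have k1 := hi 1 (by decide)
      obtain ⟨r, hr⟩ := key (x 0) (x 1) (t 2 - t 0) (t 2 - t 1) 1 (hx0 0) (hx0 1) h20 h21 one_ne_zero
        k0.1 k1.1 k0.2 k1.2 (vv_unit (hR.sep 2 0 (by decide))) (vv_unit (hR.sep 2 1 (by decide)))
      have hr0 : r ≠ 0 := by
        rintro rfl
        rw [mul_zero] at hr
        exact mul_ne_zero (mul_ne_zero (hx0 0) (hx0 1)) (mul_ne_zero h20 h21) hr
      refine ⟨![x 0 * (t 0 - t 2), r, 0], fun h3 => hr0 (by simpa using congrFun h3 1), ?_⟩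
      have n1 := hx0 0
      have n2 := hx0 1
      simp only [Matrix.cons_val_zero, Matrix.cons_val_one, Matrix.cons_val]
      have e : r ^ 2 = x 0 * x 1 * ((t 2 - t 0) * (t 2 - t 1)) := by rw [hr, sq]
      rw [e]
      field_simp
      ring

/-- An isotropic class of norm one with an odd valuation is in `KK` for some `c`. -/
theorem ic_tab_aux : ∀ s x y z a0 b0 a1 b1 : ZMod 2,
    IC s x y z ![(a0, b0), (a1, b1), (a0 + a1, b0 + b1)] → ¬ (a0 = 0 ∧ a1 = 0) →
    ∃ c : ZMod 2, ∃ i : Fin 3, ∀ k, (![(a0, b0), (a1, b1), (a0 + a1, b0 + b1)] :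
      Fin 3 → ZMod 2 × ZMod 2) k = TT s c x y z i k := by
  decide

theorem ic_tab {s x y z : ZMod 2} {v : Fin 3 → ZMod 2 × ZMod 2} (hv : v 0 + v 1 + v 2 = 0)
    (h : IC s x y z v) (hne : ¬ ∀ i, (v i).1 = 0) : ∃ c, ∃ i, v = TT s c x y z i := by
  obtain ⟨a0, b0, h0⟩ : ∃ a b, v 0 = (a, b) := ⟨_, _, rfl⟩
  obtain ⟨a1, b1, h1⟩ : ∃ a b, v 1 = (a, b) := ⟨_, _, rfl⟩
  obtain ⟨a2, b2, h2⟩ : ∃ a b, v 2 = (a, b) := ⟨_, _, rfl⟩
  rw [h0, h1, h2, Prod.mk_add_mk, Prod.mk_add_mk] at hv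
  have hz : ∀ u v w : ZMod 2, u + v + w = 0 → w = u + v := by decide
  have k1 := hz _ _ _ (congrArg Prod.fst hv)
  have k2 := hz _ _ _ (congrArg Prod.snd hv)
  have e : v = ![(a0, b0), (a1, b1), (a0 + a1, b0 + b1)] := by
    funext i
    fin_cases i
    · exact h0
    · exact h1
    · rw [← k1, ← k2]
      exact h2
  rw [e] at h
  obtain ⟨c, i, hc⟩ := ic_tab_aux s x y z a0 b0 a1 b1 h (by
    rintro ⟨l0, l1⟩
    apply hne
    intro i
    fin_cases i
    · show (v 0).1 = 0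
      rw [h0]
      exact l0
    · show (v 1).1 = 0
      rw [h1]
      exact l1
    · show (v 2).1 = 0
      rw [h2]
      show a2 = 0
      rw [k1, l0, l1]
      exact add_zero 0)
  refine ⟨c, i, ?_⟩
  rw [e]
  funext k
  exact hc k

/-- Classes in `KK` for different `c`. -/
theorem tt_dich : ∀ s x y z : ZMod 2, ∀ i j : Fin 3, TT s 0 x y z i + TT s 1 x y z j ≠ 0 ∧
    ((∀ k, ((TT s 0 x y z i + TT s 1 x y z j) k).1 = 0) ∨
      ¬ IC s x y z (TT s 0 x y z i + TT s 1 x y z j)) := by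
  decide

theorem tt_odd : ∀ s c x y z : ZMod 2, ∀ i : Fin 3, ¬ ∀ k, (TT s c x y z i k).1 = 0 := by
  decide

end Pool.Agent.H30GS
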