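import Pool.Agent.H30GS.Sel

/-!
# The twists with trivial 2-Selmer group
-/

set_option autoImplicit false
set_option linter.all false

open Polynomial IsDedekindDomain WeierstrassCurve WeierstrassCurve.Affine NumberField
open Pool.Agent.TH115.GD
open scoped Classical IntermediateField

namespace Pool.Agent.H30GS

open Pool.Agent.N922.PQ
open Pool.Agent.H30EV
open Pool.Agent.H30GR
open Pool.Agent.N692.PMTOW
open Pool.Agent.N874.PP (Tup chA chB gq tau Two Ev Sq1 U0 sW IsBeta Rt sg)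
open Pool.Agent.N874.PM (PLoc Lies SelR ShaR)

section cls

variable {l : ℕ} [Fact l.Prime]

theorem int_unit {m : ℤ} (hm : ¬ (l : ℤ) ∣ m) : ‖(m : ℚ_[l])‖ = 1 := by
  refine le_antisymm (Padic.norm_int_le_one _) (not_lt.1 fun h => hm ?_)
  exact (Padic.norm_intCast_lt_one_iff).1 h

/-- Squares. -/
theorem sq_int (h2 : l ≠ 2) {m : ℤ} (hm : ¬ (l : ℤ) ∣ m) :
    IsSquare ((m : ℚ_[l])) ↔ IsSquare ((m : ZMod l)) := by
  have hm1 := int_unit hm
  constructor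
  · rintro ⟨r, hr⟩
    have hr1 : ‖r‖ = 1 := by
      have h3 := congrArg norm hr
      rw [hm1, norm_mul] at h3
      have h4 : ‖r‖ ^ 2 = 1 := by rw [sq]; exact h3.symm
      exact (pow_eq_one_iff_of_nonneg (norm_nonneg _) two_ne_zero).1 h4
    obtain ⟨c, hc⟩ := exists_near hr1.le
    refine ⟨(c : ZMod l), ?_⟩
    have h5 : ‖((m - c * c : ℤ) : ℚ_[l])‖ < 1 := by
      have e : ((m - c * c : ℤ) : ℚ_[l]) = (r - c) * (r + c) := by
        push_cast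
        rw [hr]
        ring
      rw [e, norm_mul]
      refine mul_lt_one_of_nonneg_of_lt_one_left (norm_nonneg _) hc ?_
      exact (Padic.nonarchimedean _ _).trans (max_le hr1.le (Padic.norm_int_le_one _))
    rw [Padic.norm_intCast_lt_one_iff, ← ZMod.intCast_zmod_eq_zero_iff_dvd] at h5
    push_cast at h5
    exact sub_eq_zero.1 h5
  · rintro ⟨r, hr⟩
    obtain ⟨c, rfl⟩ := ZMod.intCast_surjective r
    have h5 : ‖((m - c * c : ℤ) : ℚ_[l])‖ < 1 := by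
      rw [Padic.norm_intCast_lt_one_iff, ← ZMod.intCast_zmod_eq_zero_iff_dvd]
      push_cast
      rw [hr, sub_self]
    have hc : ¬ (l : ℤ) ∣ c := by
      intro h
      apply hm
      have h6 : (l : ℤ) ∣ m - c * c := by
        rw [← ZMod.intCast_zmod_eq_zero_iff_dvd]
        push_cast
        rw [hr, sub_self]
      have h7 := dvd_add h6 (h.mul_right c)
      rwa [sub_add_cancel] at h7
    have hc1 := int_unit hc
    have hc0 : (c : ℚ_[l]) ≠ 0 := by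
      intro h
      rw [h, norm_zero] at hc1
      exact zero_ne_one hc1
    have h7 := sq_near' h2 (x := (m : ℚ_[l])) (y := (c : ℚ_[l]) * c) (by
      rw [norm_mul, hc1, mul_one]
      push_cast at h5
      exact h5)
    obtain ⟨u, hu⟩ := h7
    refine ⟨u / c, ?_⟩
    field_simp
    linear_combination hu

/-- The class of `l m`. -/
theorem cc_int (h2 : l ≠ 2) {m : ℤ} (hm : ¬ (l : ℤ) ∣ m) :
    cc ((((l : ℤ) * m : ℤ)) : ℚ_[l]) = if jacobiSym m l = 1 then 0 else 1 := by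
  have hl : l.Prime := Fact.out
  have hm1 := int_unit hm
  have hm0 : (m : ℚ_[l]) ≠ 0 := by
    intro h
    rw [h, norm_zero] at hm1
    exact zero_ne_one hm1
  have hmz : m ≠ 0 := by
    rintro rfl
    exact hm (dvd_zero _)
  have hval : (m : ℚ_[l]).valuation = 0 := by
    rw [Padic.valuation_intCast, padicValInt.eq_zero_of_not_dvd hm]
    rfl
  have hup : up ((((l : ℤ) * m : ℤ)) : ℚ_[l]) = (m : ℚ_[l]) := by
    unfold up
    have e : ((((l : ℤ) * m : ℤ)) : ℚ_[l]) = (l : ℚ_[l]) * (m : ℚ_[l]) := by push_cast; rfl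
    rw [e, Padic.valuation_mul p_ne hm0, Padic.valuation_p, hval, add_zero, zpow_neg_one]
    have := p_ne (p := l)
    field_simp
  unfold cc
  rw [hup]
  have h3 : IsSquare ((m : ℚ_[l])) ↔ jacobiSym m l = 1 := by
    rw [sq_int h2 hm, ← jacobiSym.legendreSym.to_jacobiSym]
    rw [legendreSym.eq_one_iff l (fun h => hm ((ZMod.intCast_zmod_eq_zero_iff_dvd _ _).1 h))]
  by_cases h4 : jacobiSym m l = 1
  · rw [if_pos (h3.2 h4), if_pos h4]
  · rw [if_neg (fun h => h4 (h3.1 h)), if_neg h4]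

end cls

section zero

variable {L : Type} [Field L] [NumberField L]

/-- The 2-Selmer group is trivial. -/
theorem sel_zero (H : Parts2) {a b d : ℤ} {θ : L} {X' : ℕ} {Sf T J : Finset ℤ} {s A B : ℤ → ℤ}
    (hc : IsCub a b θ) (hS : GoodS Sf s) (hF : Fam X' Sf s T A B a b) (hT : GoodT T A B)
    (hJ : J ⊆ Sf) (ha4 : a % 4 = 3) (hb4 : b % 4 = 3) (hd4 : d % 4 = 1 ∨ d % 4 = 2) {S : Finset ℕ}
    {e : ℕ → ZMod 2} (htriv : ∀ α : L, VV hc J S S e α → IsSquare α)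
    (hSp : ∀ l ∈ S, Spl3 a b l) (hSJ : ∀ l ∈ S, (l : ℤ) ∉ J)
    (hd : ∀ P : ℤ, IsPr P → P ∣ d → P ∈ irr a b ∪ zs S)
    (hdS : ∀ l ∈ S, ∀ _ : Fact l.Prime, ‖(((d * ∏ Q ∈ J, Q : ℤ)) : ℚ_[l])‖ = (l : ℝ)⁻¹ ∧
      cc (((d * ∏ Q ∈ J, Q : ℤ)) : ℚ_[l]) = e l) :
    SelBd (𝓞 ℚ) (sW (((a * d ^ 2 * (∏ Q ∈ J, Q) ^ 2 : ℤ)) : ℚ)
      (((b * d ^ 3 * (∏ Q ∈ J, Q) ^ 3 : ℤ)) : ℚ)) 1 := by
  have hone : ∀ f : (Sep ℚ ≃ₐ[ℚ] Sep ℚ) → Pt (sW (((a * d ^ 2 * (∏ Q ∈ J, Q) ^ 2 : ℤ)) : ℚ)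
      (((b * d ^ 3 * (∏ Q ∈ J, Q) ^ 3 : ℤ)) : ℚ)) (Sep ℚ),
      IsCoc (sW (((a * d ^ 2 * (∏ Q ∈ J, Q) ^ 2 : ℤ)) : ℚ)
        (((b * d ^ 3 * (∏ Q ∈ J, Q) ^ 3 : ℤ)) : ℚ)) f → (∀ σ, (2 : ℕ) • f σ = 0) →
      (∀ v : HeightOneSpectrum (𝓞 ℚ), LocTriv (sW (((a * d ^ 2 * (∏ Q ∈ J, Q) ^ 2 : ℤ)) : ℚ)
        (((b * d ^ 3 * (∏ Q ∈ J, Q) ^ 3 : ℤ)) : ℚ)) (Comp (𝓞 ℚ) ℚ v) (Sep (Comp (𝓞 ℚ) ℚ v)) f) →
      ∃ P : Pt (sW (((a * d ^ 2 * (∏ Q ∈ J, Q) ^ 2 : ℤ)) : ℚ)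
          (((b * d ^ 3 * (∏ Q ∈ J, Q) ^ 3 : ℤ)) : ℚ)) (Sep ℚ), (2 : ℕ) • P = 0 ∧
          ∀ σ, f σ = act _ (rs ℚ σ) P - P := by
    intro f hf h2f hloc
    obtain ⟨h, h0, hN, hC, hpl, hsq⟩ := sel_elem H hc hS hF hT hJ ha4 hb4 hd4 (R := S)
      (fun l hl => (hSp l hl).pr) (by
        rintro Q hQ ⟨l, hl, rfl⟩
        exact hSJ l hl hQ) hd hf h2f hloc
    apply hsq
    refine htriv _ ⟨h0, hN, hC, fun l hl hf t hR => ?_⟩
    obtain ⟨h3, h4⟩ := hdS l hl hf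
    have h5 := kummer (hSp l hl).ne2 hR h3 (ploc_padic (hSp l hl).ne2 hpl) (fun i => by
      rw [← phi_aeval hc (t i) (hR.root i)]
      exact fun h6 => h0 ((map_eq_zero (phi hc (t i) (hR.root i))).1 h6))
    rw [h4] at h5
    have e : vals hc hR (aeval (((d * ∏ Q ∈ J, Q : ℤ) : L) * θ) h) =
        fun i => aeval ((((d * ∏ Q ∈ J, Q : ℤ)) : ℚ_[l]) * t i) h := by
      funext i
      exact phi_aeval hc (t i) (hR.root i) _ h
    rw [e]
    exact h5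
  intro m z hz h2z hlz hdiff
  by_contra hm
  push Not at hm
  obtain ⟨P, hP, hP2⟩ := hone (z ⟨0, by omega⟩) (hz _) (h2z _) (hlz _)
  obtain ⟨Q, hQ, hQ2⟩ := hone (z ⟨1, hm⟩) (hz _) (h2z _) (hlz _)
  have h1 := hdiff ⟨0, by omega⟩ ⟨1, hm⟩ ⟨P - Q, by rw [smul_sub, hP, hQ, sub_zero], fun σ => by
    rw [hP2, hQ2, map_sub]
    abel⟩
  have h2 := congrArg Fin.val h1
  exact zero_ne_one h2

end zero

/-- The admissible twists for the set `S` of primes with three zeros and the signs `ε`. -/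
structure TwS (A B : ℤ) (S : Finset ℕ) (ε : ℕ → ℤ) (d : ℤ) : Prop where
  sqf : Squarefree d
  two : d % 4 = 1 ∨ d % 4 = 2
  sp : ∀ l ∈ S, (l : ℤ) ∣ d ∧ jacobiSym (d / l) l = ε l
  ir : ∀ P : ℤ, IsPr P → P ∣ d → P ∈ irr A B ∨ ∃ l ∈ S, P = (l : ℤ)

/-- Signs for all lists of primes with three zeros. -/
def GSelS (A B : ℤ) : Prop := ∀ L : List ℕ, L.Nodup → (∀ l ∈ L, Spl3 A B l) →
  ∃ ε : ℕ → ℤ, (∀ l ∈ L, ε l = 1 ∨ ε l = -1) ∧ ∀ n : ℕ, ∀ d : ℤ, TwS A B (L.take n).toFinset ε d →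
    SelBd (𝓞 ℚ) (sW (((A * d ^ 2 : ℤ)) : ℚ) (((B * d ^ 3 : ℤ)) : ℚ)) 1

/-- The theorem on the signs. -/
theorem gselS (H : Parts2) (hI : S_INT) {L : Type} [Field L] [NumberField L] {a b : ℤ} {θ : L}
    {X' : ℕ} {Sf T J : Finset ℤ} {s A B : ℤ → ℤ}
    (hc : IsCub a b θ) (hS : GoodS Sf s) (hF : Fam X' Sf s T A B a b) (hT : GoodT T A B)
    (hJ : J ⊆ Sf) (hsel : HSel a b J θ) (ha4 : a % 4 = 3) (hb4 : b % 4 = 3) :
    GSelS (a * (∏ Q ∈ J, Q) ^ 2) (b * (∏ Q ∈ J, Q) ^ 3) := by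
  intro lst hnd hS3
  have hJp : ∀ Q ∈ J, IsPr Q := fun Q hQ => (hS Q (hJ hQ)).1
  obtain ⟨D, hD⟩ : ∃ D : ℤ, D = ∏ Q ∈ J, Q := ⟨_, rfl⟩
  have hirr2 : irr (a * (∏ Q ∈ J, Q) ^ 2) (b * (∏ Q ∈ J, Q) ^ 3) = irr a b :=
    irr_mul fun P hP hPD => hF.rb P (hJ (prime_prod hJp hP hPD))
  have hlD : ∀ l ∈ lst, ¬ (l : ℤ) ∣ dsc a b ∧ ¬ (l : ℤ) ∣ ∏ Q ∈ J, Q := by
    intro l hl
    have h1 := (hS3 l hl).gd
    rw [dsc_tw] at h1
    exact ⟨fun h2 => h1 (h2.mul_left _), fun h2 => h1 ((dvd_pow h2 (by norm_num)).mul_right _)⟩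
  have hSp : ∀ l ∈ lst, Spl3 a b l := by
    intro l hl
    refine ⟨(hS3 l hl).pr, (hS3 l hl).ne2, (hlD l hl).1, ?_⟩
    have := (hS3 l hl).three
    rwa [nz_tw (hS3 l hl).pr (hlD l hl).2] at this
  have hSJ : ∀ l ∈ lst, (l : ℤ) ∉ J := fun l hl h =>
    (hlD l hl).2 (Finset.dvd_prod_of_mem (fun Q : ℤ => Q) h)
  obtain ⟨e, he⟩ := signs H hI hc hS hT hF hJ hsel lst hnd hSp hSJ
  refine ⟨fun l => (if e l = 0 then 1 else -1) * jacobiSym D l, fun l hl => ?_, fun n d hd => ?_⟩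
  · have h1 : jacobiSym D l = 1 ∨ jacobiSym D l = -1 := by
      apply jacobiSym.eq_one_or_neg_one
      rw [Int.gcd_comm]
      have hl' : Prime (l : ℤ) := Nat.prime_iff_prime_int.1 (hSp l hl).pr
      have := (hl'.irreducible.coprime_iff_not_dvd (n := D)).2 (by rw [hD]; exact (hlD l hl).2)
      exact Int.isCoprime_iff_gcd_eq_one.1 this
    show (if e l = 0 then (1 : ℤ) else -1) * jacobiSym D l = 1 ∨
      (if e l = 0 then (1 : ℤ) else -1) * jacobiSym D l = -1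
    split_ifs <;> rcases h1 with h1 | h1 <;> rw [h1] <;> norm_num
  · have e1 : a * (∏ Q ∈ J, Q) ^ 2 * d ^ 2 = a * d ^ 2 * (∏ Q ∈ J, Q) ^ 2 := by ring
    have e2 : b * (∏ Q ∈ J, Q) ^ 3 * d ^ 3 = b * d ^ 3 * (∏ Q ∈ J, Q) ^ 3 := by ring
    rw [e1, e2]
    have hsub : ∀ l ∈ (lst.take n).toFinset, l ∈ lst := fun l hl =>
      List.mem_of_mem_take (List.mem_toFinset.1 hl)
    refine sel_zero H hc hS hF hT hJ ha4 hb4 hd.two (he n) (fun l hl => hSp l (hsub l hl))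
      (fun l hl => hSJ l (hsub l hl)) ?_ ?_
    · intro P hP hPd
      rcases hd.ir P hP hPd with h | ⟨l, hl, rfl⟩
      · rw [hirr2] at h
        exact Or.inl h
      · exact Or.inr ⟨l, hl, rfl⟩
    · intro l hl' hfl
      have hl := hsub l hl'
      obtain ⟨⟨m, hm⟩, hj⟩ := hd.sp l hl'
      have hlp : l.Prime := hfl.out
      have hl' : Prime (l : ℤ) := Nat.prime_iff_prime_int.1 hlp
      have hl0 : (l : ℤ) ≠ 0 := hl'.ne_zero
      have hlm : ¬ (l : ℤ) ∣ m := by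
        rintro ⟨k, rfl⟩
        apply hl'.not_unit
        exact hd.sqf _ ⟨k, by rw [hm]; ring⟩
      have hmD : ¬ (l : ℤ) ∣ m * D := by
        intro h
        rcases hl'.dvd_or_dvd h with h | h
        · exact hlm h
        · rw [hD] at h
          exact (hlD l hl).2 h
      have hdiv : d / l = m := by
        rw [hm]
        exact Int.mul_ediv_cancel_left _ hl0
      have e3 : d * ∏ Q ∈ J, Q = (l : ℤ) * (m * D) := by rw [hm, hD]; ring
      rw [e3]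
      constructor
      · rw [Int.cast_mul, norm_mul, int_unit hmD, mul_one, Int.cast_natCast]
        exact Padic.norm_p
      · rw [cc_int (hSp l hl).ne2 hmD]
        rw [hdiv] at hj
        have h1 : jacobiSym D l = 1 ∨ jacobiSym D l = -1 := by
          apply jacobiSym.eq_one_or_neg_one
          rw [Int.gcd_comm]
          have := (hl'.irreducible.coprime_iff_not_dvd (n := D)).2 (by rw [hD]; exact (hlD l hl).2)
          exact Int.isCoprime_iff_gcd_eq_one.1 this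
        have h3 : jacobiSym (m * D) l = if e l = 0 then 1 else -1 := by
          rw [jacobiSym.mul_left, hj]
          show (if e l = 0 then (1 : ℤ) else -1) * jacobiSym D l * jacobiSym D l = _
          rcases h1 with h1 | h1 <;> rw [h1] <;> ring
        rw [h3]
        have h4 : ∀ x : ZMod 2, (if (if x = 0 then (1 : ℤ) else -1) = 1 then (0 : ZMod 2) else 1) = x := by
          decide
        exact h4 _

end Pool.Agent.H30GS
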